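import Pool.Agent.K3h75.ND.StmG

/-!
# Hypersurfaces with nodal reductions: statements over number fields
-/

set_option autoImplicit false

namespace Pool.Agent.K3h75.ND

open MvPolynomial Pool.Agent.TH214.RM NumberField

/-- The form with coefficients `a` in the ring `O` is smooth over all fields of characteristic zero,
and over all fields of positive characteristic it has only nondegenerate singular points. -/
def GoodVecO {O : Type} [CommRing O] {N d : ℕ} (a : Mon (N + 1) d → O) : Prop :=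
  (∀ (k : Type) [Field k] [CharZero k] (φ : O →+* k) (x : Fin (N + 1) → k),
    (∀ i, eval x (pderiv i (form fun m => φ (a m))) = 0) → x = 0) ∧
  ∀ p : ℕ, p.Prime → ∀ (k : Type) [Field k] [CharP k p] (φ : O →+* k) (x : Fin (N + 1) → k)
    (s : Fin (N + 1)), x s = 1 → eval x (form fun m => φ (a m)) = 0 →
    (∀ i, eval x (pderiv i (form fun m => φ (a m))) = 0) →
    hdet (form fun m => φ (a m)) s x ≠ 0

/-- **NRM1**: a norm of a polynomial, in the coordinates with respect to a basis. -/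
def S_NRM1 : Prop := ∀ (O ι σ : Type) [CommRing O] [IsDomain O] [CharZero O] [Fintype ι]
  (ω : Module.Basis ι ℤ O) (Δ : MvPolynomial σ ℤ), Δ ≠ 0 →
  ∃ Δ' : MvPolynomial (σ × ι) ℤ, Δ' ≠ 0 ∧
  ∀ (k : Type) [Field k] (φ : O →+* k) (B : σ × ι → ℤ),
    eval₂ (Int.castRingHom k) (fun s => φ (∑ i, B (s, i) • ω i)) Δ = 0 →
    ((eval B Δ' : ℤ) : k) = 0

/-- **NRM2**: a norm of a monic polynomial, in the coordinates with respect to a basis; the value of
the variable is `d ∑ c i ω i`, and the coordinate `c i₀` is the new variable. -/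
def S_NRM2 : Prop := ∀ (O ι σ : Type) [CommRing O] [IsDomain O] [CharZero O] [Fintype ι]
  (ω : Module.Basis ι ℤ O) (i₀ : ι) (g : Polynomial (MvPolynomial σ ℤ)), g.Monic →
  ∀ d : ℕ, 1 ≤ d → ∃ (δ : ℕ) (g' : Polynomial (MvPolynomial ((σ × ι) ⊕ {i : ι // i ≠ i₀}) ℤ)),
    1 ≤ δ ∧ g'.Monic ∧
    ∀ (k : Type) [Field k] (φ : O →+* k) (B : σ × ι → ℤ) (c : ι → ℤ),
      ev g (fun s => φ (∑ i, B (s, i) • ω i)) ((d : k) * φ (∑ i, c i • ω i)) = 0 →
      ((ev g' (Sum.elim B fun i : {i : ι // i ≠ i₀} => c i) (δ * c i₀) : ℤ) : k) = 0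

/-- **CNTO**: a positive proportion of all forms with coefficients in `O`. -/
def S_CNTO : Prop := ∀ (O ι : Type) [CommRing O] [IsDomain O] [CharZero O] [Fintype ι]
  (ω : Module.Basis ι ℤ O) (N d : ℕ), 1 ≤ N → 2 ≤ d →
  ∃ c : ℝ, 0 < c ∧ ∃ H₀ : ℕ, ∀ H : ℕ, H₀ ≤ H →
    c * (2 * (H : ℝ) + 1) ^ (Fintype.card (Mon (N + 1) d) * Fintype.card ι) ≤
      ({a : Mon (N + 1) d → O | (∀ m i, |ω.repr (a m) i| ≤ H) ∧ GoodVecO a}.ncard : ℝ)

/-- **G0O**: smoothness and nodal reductions over all number fields. -/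
def S_G0O : Prop := ∀ (n d : ℕ) (O : Type) [CommRing O] (a : Mon (n + 1 + 1) d → O),
  GoodVecO a → ∀ (E : Type) [Field E] [NumberField E] (ψ : O →+* 𝓞 E),
  Smooth (map (algebraMap (𝓞 E) E) (form fun m => ψ (a m))) ∧
  ∀ 𝔭 : Ideal (𝓞 E), 𝔭.IsPrime → 𝔭 ≠ ⊥ → Nod 𝔭 (form fun m => ψ (a m))

end Pool.Agent.K3h75.ND
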