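import Pool.Agent.K3h75.ND.StmK

/-!
# Hypersurfaces with nodal reductions: models, and the counting of forms
-/

set_option autoImplicit false
set_option linter.unusedSectionVars false
set_option linter.unusedVariables false

namespace Pool.Agent.K3h75.ND

open MvPolynomial Pool.Agent.TH214.RM NumberField AlgebraicGeometry CategoryTheory
open Pool.Agent.W418

/-- Models of smooth hypersurfaces with nodal reductions. -/
theorem model_nod (hGM : S_GM) {E : Type} [Field E] [NumberField E] {n : ℕ} (hn : 1 ≤ n)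
    (H : MvPolynomial (Fin (n + 2)) (𝓞 E)) (d : ℕ) (hd : 2 ≤ d) (hH : H.IsHomogeneous d)
    (hsm : Smooth (map (algebraMap (𝓞 E) E) H))
    (hnod : ∀ 𝔭 : Ideal (𝓞 E), 𝔭.IsPrime → 𝔭 ≠ ⊥ → Nod 𝔭 H) {A : Type} [CommRing A] [Algebra E A]
    (π : MvPolynomial (Fin (n + 2)) E →ₐ[E] A) (hπ : Function.Surjective π)
    (hker : RingHom.ker π = Ideal.span {map (algebraMap (𝓞 E) E) H})
    (𝒜 : ℕ → Submodule E A) [GradedAlgebra 𝒜]
    (h𝒜 : ∀ d, 𝒜 d = (homogeneousSubmodule (Fin (n + 2)) E d).map π.toLinearMap)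
    {Y : Scheme.{0}} (f : Y ⟶ Spec (CommRingCat.of E)) (i : Y ≅ Proj 𝒜)
    (hi : i.hom ≫ GO.projStr 𝒜 = f) : GO.HasModel (𝓞 E) E f := by
  have hGd : (map (algebraMap (𝓞 E) E) H).IsHomogeneous d := hH.map _
  have hirr := irreducible_of_smooth hn (map (algebraMap (𝓞 E) E) H) d (by omega) hGd hsm
  obtain ⟨F, _, _, x, b, hx0, hrel, hgen, htb⟩ := exists_ff (map (algebraMap (𝓞 E) E) H) hirr d hGd
    (not_dvd_X _ hirr.ne_zero d hd hGd)
  let _ : Algebra (𝓞 E) F := ((algebraMap E F).comp (algebraMap (𝓞 E) E)).toAlgebra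
  have hst : IsScalarTower (𝓞 E) E F := IsScalarTower.of_algebraMap_eq fun _ => rfl
  have hH0 : H ≠ 0 := by
    rintro rfl
    rw [map_zero] at hirr
    exact hirr.ne_zero rfl
  have hrel' : aeval x H = 0 := by
    rw [aeval_map_algebraMap] at hrel
    exact hrel
  have hM : GoodModule (𝓞 E) x :=
    hGM (𝓞 E) E F n H d hd hH hH0 hsm hnod x hx0 hrel' hgen b htb
  obtain ⟨ε, hε, hεgen, hε1⟩ := exists_eps x hx0 hgen _ htb _ hirr.prime d hGd hrel π hπ hker 𝒜 h𝒜
  exact hasModel_of_goodModule (O := 𝓞 E) 𝒜 ε hε hεgen x hε1 hM f i hi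

theorem coeff_form {N d : ℕ} {R : Type} [CommRing R] (a : Mon N d → R) (m : Mon N d) :
    (form a).coeff m.1 = a m := by
  classical
  unfold form
  rw [coeff_sum, Finset.sum_eq_single m]
  · rw [coeff_monomial, if_pos rfl]
  · intro j _ hj
    rw [coeff_monomial, if_neg]
    intro h
    exact hj (Subtype.ext h)
  · intro h
    exact absurd (Finset.mem_univ m) h

theorem coeff_form' {N d : ℕ} {R : Type} [CommRing R] (a : Mon N d → R) (e : Fin N →₀ ℕ)
    (he : e.degree ≠ d) : (form a).coeff e = 0 := by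
  classical
  unfold form
  rw [coeff_sum, Finset.sum_eq_zero]
  intro m _
  rw [coeff_monomial, if_neg]
  intro h
  apply he
  rw [← h]
  exact m.2

theorem form_homog {N d : ℕ} {R : Type} [CommRing R] (a : Mon N d → R) :
    (form a).IsHomogeneous d := by
  unfold form
  exact IsHomogeneous.sum _ _ _ fun m _ => isHomogeneous_monomial _ m.2

theorem form_coeff {N d : ℕ} {R : Type} [CommRing R] (F : MvPolynomial (Fin N) R)
    (hF : F.IsHomogeneous d) : form (fun m : Mon N d => F.coeff m.1) = F := by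
  ext e
  by_cases he : e.degree = d
  · exact coeff_form (fun m : Mon N d => F.coeff m.1) ⟨e, he⟩
  · rw [coeff_form' _ e he]
    exact (hF.coeff_eq_zero he).symm

theorem map_form' {N d : ℕ} {R S : Type} [CommRing R] [CommRing S] (φ : R →+* S)
    (a : Mon N d → R) : map φ (form a) = form fun m => φ (a m) := by
  unfold form
  rw [map_sum]
  refine Finset.sum_congr rfl fun m _ => ?_
  rw [map_monomial]

/-- The forms in a box. -/
def Box {O ι : Type} [CommRing O] (ω : Module.Basis ι ℤ O) (m d H : ℕ) :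
    Set (MvPolynomial (Fin m) O) :=
  {F | F.IsHomogeneous d ∧ ∀ e i, |ω.repr (F.coeff e) i| ≤ H}

theorem box_inj {O ι : Type} [CommRing O] (ω : Module.Basis ι ℤ O) (m d H : ℕ) :
    Set.InjOn (fun (F : MvPolynomial (Fin m) O) (p : Mon m d × ι) => ω.repr (F.coeff p.1.1) p.2)
      (Box ω m d H) := by
  intro F hF G hG h
  rw [← form_coeff F hF.1, ← form_coeff G hG.1]
  congr 1
  funext e
  apply ω.repr.injective
  ext i
  exact congrFun h (e, i)

theorem box_finite {O ι : Type} [CommRing O] [Fintype ι] (ω : Module.Basis ι ℤ O)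
    (m d H : ℕ) : (Box ω m d H).Finite ∧
      (Box ω m d H).ncard ≤ (2 * H + 1) ^ (Fintype.card (Mon m d) * Fintype.card ι) := by
  classical
  let T : Finset (Mon m d × ι → ℤ) := Fintype.piFinset fun _ => Finset.Icc (-(H : ℤ)) H
  have hmap : Set.MapsTo (fun (F : MvPolynomial (Fin m) O) (p : Mon m d × ι) =>
      ω.repr (F.coeff p.1.1) p.2) (Box ω m d H) (T : Set (Mon m d × ι → ℤ)) := by
    intro F hF
    rw [Finset.mem_coe, Fintype.mem_piFinset]
    intro p
    rw [Finset.mem_Icc]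
    exact abs_le.1 (hF.2 _ _)
  have hfin : (Box ω m d H).Finite :=
    Set.Finite.of_injOn hmap (box_inj ω m d H) T.finite_toSet
  refine ⟨hfin, ?_⟩
  refine (Set.ncard_le_ncard_of_injOn _ hmap (box_inj ω m d H) T.finite_toSet).trans ?_
  rw [Set.ncard_coe_finset, Fintype.card_piFinset, Finset.prod_const, Finset.card_univ,
    Fintype.card_prod, Int.card_Icc]
  apply le_of_eq
  congr 1
  omega

/-- The counting of the good forms. -/
theorem count (hC : S_CNTO) {O ι : Type} [CommRing O] [IsDomain O] [CharZero O] [Fintype ι]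
    (ω : Module.Basis ι ℤ O) (n d : ℕ) (hd : 2 ≤ d) (P : MvPolynomial (Fin (n + 2)) O → Prop)
    (hP : ∀ a : Mon (n + 1 + 1) d → O, GoodVecO a → P (form a)) :
    ∃ c : ℝ, 0 < c ∧ ∃ H₀ : ℕ, ∀ H : ℕ, H₀ ≤ H →
      c * ((Box ω (n + 2) d H).ncard : ℝ) ≤ ({F ∈ Box ω (n + 2) d H | P F}.ncard : ℝ) := by
  obtain ⟨c, hc, H₀, h⟩ := hC O ι ω (n + 1) d (by omega) hd
  refine ⟨c, hc, H₀, fun H hH => ?_⟩
  obtain ⟨hfin, hcard⟩ := box_finite ω (n + 2) d H
  have h1 : c * ((Box ω (n + 2) d H).ncard : ℝ) ≤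
      c * (2 * (H : ℝ) + 1) ^ (Fintype.card (Mon (n + 1 + 1) d) * Fintype.card ι) := by
    apply mul_le_mul_of_nonneg_left _ hc.le
    exact_mod_cast hcard
  refine h1.trans ((h H hH).trans ?_)
  have h2 : {a : Mon (n + 1 + 1) d → O | (∀ m i, |ω.repr (a m) i| ≤ H) ∧ GoodVecO a}.ncard ≤
      {F ∈ Box ω (n + 2) d H | P F}.ncard := by
    refine Set.ncard_le_ncard_of_injOn form ?_ ?_ (hfin.subset (Set.sep_subset _ _))
    · rintro a ⟨ha, hg⟩
      refine ⟨⟨form_homog a, fun e i => ?_⟩, hP a hg⟩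
      by_cases he : e.degree = d
      · have h3 := coeff_form a ⟨e, he⟩
        rw [h3]
        exact ha _ _
      · rw [coeff_form' a e he, map_zero]
        simp
    · intro a _ b _ hab
      funext m
      rw [← coeff_form a m, ← coeff_form b m, hab]
  exact_mod_cast h2

end Pool.Agent.K3h75.ND
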