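import Mathlib

/-!
# Hypersurfaces with nodal reductions: statements (counting)
-/

set_option autoImplicit false

namespace Pool.Agent.K3h75.ND

open MvPolynomial

/-- The exponents of the monomials of degree `d` in `N` variables. -/
def Mon (N d : ℕ) : Type := {m : Fin N →₀ ℕ // m.degree = d}

instance (N d : ℕ) : Finite (Mon N d) := by
  classical
  refine Finite.of_injective
    (fun m : Mon N d => (⟨m.1, by
      rw [Finset.mem_finsuppAntidiag']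
      have h1 : Finsupp.degree m.1 = d := m.2
      exact ⟨h1, Finset.subset_univ _⟩⟩ :
      {m // m ∈ (Finset.univ : Finset (Fin N)).finsuppAntidiag d})) ?_
  intro a b h
  exact Subtype.ext (congrArg (fun z => z.1) h)

noncomputable instance (N d : ℕ) : Fintype (Mon N d) := Fintype.ofFinite _

/-- The form with the coefficients `a`. -/
noncomputable def form {N d : ℕ} {R : Type} [CommRing R] (a : Mon N d → R) :
    MvPolynomial (Fin N) R :=
  ∑ m, monomial m.1 (a m)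

/-- The monomial `m` is the power `X 0 ^ d`. -/
def IsFirst {N d : ℕ} (m : Mon (N + 1) d) : Prop := m.1 = Finsupp.single 0 d

/-- The monomial `m` is a power `X i ^ d` of a variable. -/
def IsPow {N d : ℕ} (m : Mon (N + 1) d) : Prop := ∃ i, m.1 = Finsupp.single i d

/-- The monomials different from `X 0 ^ d`. -/
def Idx (N d : ℕ) : Type := {m : Mon (N + 1) d // ¬ IsFirst m}

instance (N d : ℕ) : Finite (Idx N d) := inferInstanceAs (Finite {m : Mon (N + 1) d // ¬ IsFirst m})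

noncomputable instance (N d : ℕ) : Fintype (Idx N d) := Fintype.ofFinite _

open Classical in
/-- The coefficients of the form `∑ b m X ^ m + c ∑ X i ^ d`. -/
noncomputable def pcoef {N d : ℕ} {R : Type} [CommRing R] (b : Idx N d → R) (c : R)
    (m : Mon (N + 1) d) : R :=
  (if h : IsFirst m then 0 else b ⟨m, h⟩) + (if IsPow m then c else 0)

/-- The form `∑ b m X ^ m + c ∑ X i ^ d`. -/
noncomputable def pform {N d : ℕ} {R : Type} [CommRing R] (b : Idx N d → R) (c : R) :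
    MvPolynomial (Fin (N + 1)) R := form (pcoef b c)

/-- The Hessian determinant in the variables `X i`, `i ≠ s`, at the point `x`. -/
noncomputable def hdet {N : ℕ} {k : Type} [CommRing k] (G : MvPolynomial (Fin N) k) (s : Fin N)
    (x : Fin N → k) : k :=
  (Matrix.of fun i j : {j : Fin N // j ≠ s} => eval x (pderiv i.1 (pderiv j.1 G))).det

/-- Evaluation of the polynomial `g` in `c` with coefficients in `ℤ[b]`. -/
noncomputable def ev {ι k : Type} [CommRing k] (g : Polynomial (MvPolynomial ι ℤ)) (b : ι → k)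
    (c : k) : k :=
  (g.map (eval₂Hom (Int.castRingHom k) b)).eval c

/-- **E1**: the values `c` for which `∑ b m X ^ m + c ∑ X i ^ d` is singular are zeros of a monic
polynomial in `d c` with coefficients in `ℤ[b]`. -/
def S_E1 : Prop := ∀ N d : ℕ, 2 ≤ d → ∃ g : Polynomial (MvPolynomial (Idx N d) ℤ), g.Monic ∧
  ∀ (k : Type) [Field k] (b : Idx N d → k) (c : k) (x : Fin (N + 1) → k), x ≠ 0 →
    (∀ i, eval x (pderiv i (pform b c)) = 0) → ev g b ((d : k) * c) = 0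

/-- **GND**: for generic `b` the form `∑ b m X ^ m + c ∑ X i ^ d` has only nondegenerate singular
points, for all algebraic `c`. -/
def S_GND : Prop := ∀ N d : ℕ, 2 ≤ d → ∀ (L : Type) [Field L]
  [Algebra (FractionRing (MvPolynomial (Idx N d) ℤ)) L]
  [Algebra.IsAlgebraic (FractionRing (MvPolynomial (Idx N d) ℤ)) L] (c : L)
  (x : Fin (N + 1) → L) (s : Fin (N + 1)), x s = 1 →
  (∀ i, eval x (pderiv i (pform (fun m => algebraMap (FractionRing (MvPolynomial (Idx N d) ℤ)) L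
    (algebraMap (MvPolynomial (Idx N d) ℤ) _ (X m))) c)) = 0) →
  hdet (pform (fun m => algebraMap (FractionRing (MvPolynomial (Idx N d) ℤ)) L
    (algebraMap (MvPolynomial (Idx N d) ℤ) _ (X m))) c) s x ≠ 0

/-- **E2**: if the form `∑ b m X ^ m + c ∑ X i ^ d` has a degenerate singular point then
`Δ (b) = 0`. -/
def S_E2 : Prop := ∀ N d : ℕ, 2 ≤ d → ∃ Δ : MvPolynomial (Idx N d) ℤ, Δ ≠ 0 ∧
  ∀ (k : Type) [Field k] (b : Idx N d → k) (c : k) (x : Fin (N + 1) → k) (s : Fin (N + 1)),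
    x s = 1 → (∀ i, eval x (pderiv i (pform b c)) = 0) → hdet (pform b c) s x = 0 →
    eval₂ (Int.castRingHom k) b Δ = 0

/-- **EKA**: zeros of `Δ` modulo `p` in a residue class modulo `Q`. -/
def S_EKA : Prop := ∀ (ι : Type) [Fintype ι] (Δ : MvPolynomial ι ℤ), Δ ≠ 0 →
  ∃ C₁ : ℝ, 0 < C₁ ∧ ∃ P₀ : ℕ, ∀ Q : ℕ, 1 ≤ Q → ∀ p : ℕ, p.Prime → P₀ ≤ p → ¬ p ∣ Q →
  ∀ (b₀ : ι → ℤ) (H : ℕ), p * Q ≤ H →
    (({b : ι → ℤ | (∀ i, |b i| ≤ 2 * H ∧ (Q : ℤ) ∣ b i - b₀ i) ∧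
      (p : ℤ) ∣ eval b Δ}.ncard : ℕ) : ℝ) ≤ C₁ / p * ((H : ℝ) / Q) ^ Fintype.card ι

/-- **EKB**: zeros of a polynomial in one variable modulo `p` in a residue class modulo `Q`. -/
def S_EKB : Prop := ∀ (Q p : ℕ), 1 ≤ Q → p.Prime → ¬ p ∣ Q → ∀ (δ : ℕ), ¬ p ∣ δ → ∀ (c₀ : ℤ)
  (H : ℕ) (f : Polynomial ℤ), f.Monic →
    (({c : ℤ | |c| ≤ H ∧ (Q : ℤ) ∣ c - c₀ ∧ (p : ℤ) ∣ f.eval (δ * c)}.ncard : ℕ) : ℝ) ≤
      f.natDegree * (2 * (H : ℝ) / (p * Q) + 1)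

/-- **EK**: the sieve (Ekedahl's method). -/
def S_EK : Prop := ∀ (ι : Type) [Fintype ι] (g : Polynomial (MvPolynomial ι ℤ)), g.Monic →
  ∀ δ : ℕ, 1 ≤ δ → ∀ Δ : MvPolynomial ι ℤ, Δ ≠ 0 →
  ∃ C₁ : ℝ, 0 < C₁ ∧ ∃ P₀ : ℕ, ∀ P : ℕ, P₀ ≤ P → ∀ Q : ℕ, 1 ≤ Q →
  (∀ p : ℕ, p.Prime → P < p → ¬ p ∣ Q) → ∀ (b₀ : ι → ℤ) (c₀ : ℤ), ∃ H₀ : ℕ, ∀ H : ℕ, H₀ ≤ H →
    (({z : (ι → ℤ) × ℤ | (∀ i, |z.1 i| ≤ 2 * H ∧ (Q : ℤ) ∣ z.1 i - b₀ i) ∧ |z.2| ≤ H ∧
      (Q : ℤ) ∣ z.2 - c₀ ∧ (ev g z.1 (δ * z.2) = 0 ∨ eval z.1 Δ = 0 ∨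
        ∃ p : ℕ, p.Prime ∧ P < p ∧ (p : ℤ) ∣ ev g z.1 (δ * z.2) ∧
          (p : ℤ) ∣ eval z.1 Δ)}.ncard : ℕ) : ℝ) ≤
      C₁ / P * ((H : ℝ) / Q) ^ (Fintype.card ι + 1)

/-- **SMP**: smooth forms modulo all prime numbers. -/
def S_SMP : Prop := ∀ (N d : ℕ), 1 ≤ N → 2 ≤ d → ∀ p : ℕ, p.Prime →
  ∃ a : Mon (N + 1) d → ℤ, ∀ (k : Type) [Field k] [CharP k p] (x : Fin (N + 1) → k),
    eval x (form fun m => (a m : k)) = 0 →
    (∀ i, eval x (pderiv i (form fun m => (a m : k))) = 0) → x = 0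

/-- The form with integral coefficients `a` is smooth in characteristic zero, and modulo all
prime numbers it has only nondegenerate singular points. -/
def GoodVec {N d : ℕ} (a : Mon (N + 1) d → ℤ) : Prop :=
  (∀ (k : Type) [Field k] [CharZero k] (x : Fin (N + 1) → k),
    (∀ i, eval x (pderiv i (form fun m => (a m : k))) = 0) → x = 0) ∧
  ∀ p : ℕ, p.Prime → ∀ (k : Type) [Field k] [CharP k p] (x : Fin (N + 1) → k) (s : Fin (N + 1)),
    x s = 1 → eval x (form fun m => (a m : k)) = 0 →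
    (∀ i, eval x (pderiv i (form fun m => (a m : k))) = 0) →
    hdet (form fun m => (a m : k)) s x ≠ 0

/-- **CNT**: a positive proportion of all forms. -/
def S_CNT : Prop := ∀ (N d : ℕ), 1 ≤ N → 2 ≤ d → ∃ c : ℝ, 0 < c ∧ ∃ H₀ : ℕ, ∀ H : ℕ, H₀ ≤ H →
  c * (2 * (H : ℝ) + 1) ^ Fintype.card (Mon (N + 1) d) ≤
    ({a : Mon (N + 1) d → ℤ | (∀ m, |a m| ≤ H) ∧ GoodVec a}.ncard : ℝ)

end Pool.Agent.K3h75.ND
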