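import Pool.Agent.K3h75.ND.Core
import Pool.Agent.K3h75.ND.Fin
import Pool.Agent.K3h41.ND.JR
import Pool.Agent.K3h17.ND.Par
import Pool.Agent.K3h54.ND.EXP
import Pool.Agent.K3h94.ND.REG1
import Pool.Agent.K3h69.ND.REG2
import Pool.Agent.K3h34.ND.GenDF
import Pool.Agent.K3h3.ND.Lmn
import Pool.Agent.K3h45.ND.GM
import Pool.Agent.K3h97.ND.E1
import Pool.Agent.K3h97.ND.EKA
import Pool.Agent.K3h36.ND.GND
import Pool.Agent.K3h92.ND.E2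
import Pool.Agent.K3h33.ND.EK
import Pool.Agent.K3h99.ND.SMP

/-!
# Hypersurfaces with nodal reductions: summary
-/

set_option autoImplicit false

namespace Pool.Agent.K3h75.ND

theorem gm_ok : S_GM :=
  Pool.Agent.K3h45.ND.t_GM (Pool.Agent.K3h3.ND.t_LMN (t_CORE
    (Pool.Agent.K3h54.ND.t_EXP Pool.Agent.K3h17.ND.t_PAR)
    (Pool.Agent.K3h94.ND.t_REG1 Pool.Agent.K3h41.ND.t_JR1 Pool.Agent.K3h41.ND.t_JR2)
    (Pool.Agent.K3h69.ND.t_REG2 Pool.Agent.K3h41.ND.t_JR1 Pool.Agent.K3h41.ND.t_JR2)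
    Pool.Agent.K3h34.ND.t_DF))

theorem e1_ok : S_E1 := Pool.Agent.K3h97.ND.t_E1

theorem e2_ok : S_E2 := Pool.Agent.K3h92.ND.t_E2 Pool.Agent.K3h36.ND.t_GND

theorem ek_ok : S_EK :=
  Pool.Agent.K3h33.ND.t_EK Pool.Agent.K3h97.ND.t_EKA Pool.Agent.K3h97.ND.t_EKB

theorem smp_ok : S_SMP := Pool.Agent.K3h99.ND.t_SMP

end Pool.Agent.K3h75.ND
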