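import Pool.Agent.K3h75.ND.FinA
import Pool.Agent.K3h12.ND.Pb
import Pool.Agent.K3h67.ND.AFF
import Pool.Agent.K3h57.ND.HM

/-!
# Affine hypersurfaces: summary
-/

set_option autoImplicit false

namespace Pool.Agent.K3h75.ND

theorem pb_ok : S_PB := Pool.Agent.K3h12.ND.t_PB

theorem aff_ok : S_AFF := Pool.Agent.K3h67.ND.t_AFF

theorem hm_ok : S_HM := Pool.Agent.K3h57.ND.t_HM

end Pool.Agent.K3h75.ND
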