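import Pool.Agent.K3h75.ND.StmE
import Pool.Agent.K3h75.ND.Fin

/-!
# Hypersurfaces with nodal reductions at large primes: models, and the counting of forms
-/

set_option autoImplicit false
set_option linter.unusedSectionVars false
set_option linter.unusedVariables false

namespace Pool.Agent.K3h75.ND

open MvPolynomial Pool.Agent.TH214.RM NumberField AlgebraicGeometry CategoryTheory
open Pool.Agent.W418

/-- Models of smooth hypersurfaces with nodal reductions, over Dedekind domains. -/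
theorem model_nodE (hGM : S_GM) {E R : Type} [Field E] [CommRing R] [IsDedekindDomain R]
    [Algebra R E] [IsFractionRing R E] {n : ℕ} (hn : 1 ≤ n)
    (H : MvPolynomial (Fin (n + 2)) R) (d : ℕ) (hd : 2 ≤ d) (hH : H.IsHomogeneous d)
    (hsm : Smooth (map (algebraMap R E) H))
    (hnod : ∀ 𝔭 : Ideal R, 𝔭.IsPrime → 𝔭 ≠ ⊥ → Nod 𝔭 H) {A : Type} [CommRing A] [Algebra E A]
    (π : MvPolynomial (Fin (n + 2)) E →ₐ[E] A) (hπ : Function.Surjective π)
    (hker : RingHom.ker π = Ideal.span {map (algebraMap R E) H})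
    (𝒜 : ℕ → Submodule E A) [GradedAlgebra 𝒜]
    (h𝒜 : ∀ d, 𝒜 d = (homogeneousSubmodule (Fin (n + 2)) E d).map π.toLinearMap)
    {Y : Scheme.{0}} (f : Y ⟶ Spec (CommRingCat.of E)) (i : Y ≅ Proj 𝒜)
    (hi : i.hom ≫ GO.projStr 𝒜 = f) : GO.HasModel R E f := by
  have hGd : (map (algebraMap R E) H).IsHomogeneous d := hH.map _
  have hirr := irreducible_of_smooth hn (map (algebraMap R E) H) d (by omega) hGd hsm
  obtain ⟨F, _, _, x, b, hx0, hrel, hgen, htb⟩ := exists_ff (map (algebraMap R E) H) hirr d hGd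
    (not_dvd_X _ hirr.ne_zero d hd hGd)
  let _ : Algebra R F := ((algebraMap E F).comp (algebraMap R E)).toAlgebra
  have hst : IsScalarTower R E F := IsScalarTower.of_algebraMap_eq fun _ => rfl
  have hH0 : H ≠ 0 := by
    rintro rfl
    rw [map_zero] at hirr
    exact hirr.ne_zero rfl
  have hrel' : aeval x H = 0 := by
    rw [aeval_map_algebraMap] at hrel
    exact hrel
  have hM : GoodModule R x :=
    hGM R E F n H d hd hH hH0 hsm hnod x hx0 hrel' hgen b htb
  obtain ⟨ε, hε, hεgen, hε1⟩ := exists_eps x hx0 hgen _ htb _ hirr.prime d hGd hrel π hπ hker 𝒜 h𝒜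
  exact hasModel_of_goodModule (O := R) 𝒜 ε hε hεgen x hε1 hM f i hi

theorem box_card {O ι : Type} [CommRing O] [Fintype ι] (ω : Module.Basis ι ℤ O) (m d H : ℕ) :
    (2 * H + 1) ^ (Fintype.card (Mon m d) * Fintype.card ι) ≤ (Box ω m d H).ncard := by
  classical
  let T : Finset (Mon m d × ι → ℤ) := Fintype.piFinset fun _ => Finset.Icc (-(H : ℤ)) H
  have hT : T.card = (2 * H + 1) ^ (Fintype.card (Mon m d) * Fintype.card ι) := by
    rw [Fintype.card_piFinset, Finset.prod_const, Finset.card_univ, Fintype.card_prod,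
      Int.card_Icc]
    congr 1
    omega
  rw [← hT, ← Set.ncard_coe_finset]
  have hrep : ∀ (t : Mon m d × ι → ℤ) (e : Mon m d) (i : ι),
      ω.repr (∑ j, t (e, j) • ω j) i = t (e, i) := by
    intro t e i
    rw [map_sum, Finsupp.finsetSum_apply, Finset.sum_eq_single i]
    · rw [map_smul, Module.Basis.repr_self, Finsupp.smul_apply, Finsupp.single_eq_same,
        smul_eq_mul, mul_one]
    · intro j _ hj
      rw [map_smul, Module.Basis.repr_self, Finsupp.smul_apply, Finsupp.single_eq_of_ne hj.symm,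
        smul_zero]
    · intro h
      exact absurd (Finset.mem_univ i) h
  refine Set.ncard_le_ncard_of_injOn (fun t => form fun e => ∑ j, t (e, j) • ω j) ?_ ?_
    (box_finite ω m d H).1
  · intro t ht
    rw [Finset.mem_coe, Fintype.mem_piFinset] at ht
    refine ⟨form_homog _, fun e i => ?_⟩
    by_cases he : e.degree = d
    · have h3 := coeff_form (fun e => ∑ j, t (e, j) • ω j) ⟨e, he⟩
      rw [h3, hrep]
      exact abs_le.2 (Finset.mem_Icc.1 (ht _))
    · rw [coeff_form' _ e he, map_zero]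
      simp
  · intro t _ t' _ h
    funext ⟨e, i⟩
    rw [← hrep t e i, ← hrep t' e i, ← coeff_form (fun e => ∑ j, t (e, j) • ω j) e,
      ← coeff_form (fun e => ∑ j, t' (e, j) • ω j) e]
    exact congrArg (fun F => ω.repr (coeff e.1 F) i) h

/-- The counting of the exceptional forms. -/
theorem countE (hC : S_CNTE) {O ι : Type} [CommRing O] [IsDomain O] [CharZero O] [Fintype ι]
    (ω : Module.Basis ι ℤ O) (n d : ℕ) (hd : 2 ≤ d)
    (P : ℕ → MvPolynomial (Fin (n + 2)) O → Prop)
    (hP : ∀ (B : ℕ) (a : Mon (n + 1 + 1) d → O), GoodVecE B a → P B (form a)) (ε : ℝ)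
    (hε : 0 < ε) : ∃ B H₀ : ℕ, ∀ H : ℕ, H₀ ≤ H →
      ({F ∈ Box ω (n + 2) d H | ¬ P B F}.ncard : ℝ) ≤ ε * ((Box ω (n + 2) d H).ncard : ℝ) := by
  obtain ⟨B, H₀, h⟩ := hC O ι ω (n + 1) d (by omega) hd ε hε
  refine ⟨B, H₀, fun H hH => ?_⟩
  have h1 : ε * (2 * (H : ℝ) + 1) ^ (Fintype.card (Mon (n + 1 + 1) d) * Fintype.card ι) ≤
      ε * ((Box ω (n + 2) d H).ncard : ℝ) := by
    apply mul_le_mul_of_nonneg_left _ hε.le
    exact_mod_cast box_card ω (n + 2) d H
  refine le_trans ?_ ((h H hH).trans h1)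
  have hfin : {a : Mon (n + 1 + 1) d → O | (∀ m i, |ω.repr (a m) i| ≤ H) ∧
      ¬ GoodVecE B a}.Finite := by
    refine Set.Finite.of_injOn (f := form) (t := Box ω (n + 2) d H) ?_ ?_
      (box_finite ω (n + 2) d H).1
    · rintro a ⟨ha, _⟩
      refine ⟨form_homog a, fun e i => ?_⟩
      by_cases he : e.degree = d
      · have h3 := coeff_form a ⟨e, he⟩
        rw [h3]
        exact ha _ _
      · rw [coeff_form' a e he, map_zero]
        simp
    · intro a _ b _ hab
      funext m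
      rw [← coeff_form a m, ← coeff_form b m, hab]
  have h2 : {F ∈ Box ω (n + 2) d H | ¬ P B F}.ncard ≤
      {a : Mon (n + 1 + 1) d → O | (∀ m i, |ω.repr (a m) i| ≤ H) ∧ ¬ GoodVecE B a}.ncard := by
    refine Set.ncard_le_ncard_of_injOn
      (fun (F : MvPolynomial (Fin (n + 2)) O) (e : Mon (n + 1 + 1) d) => F.coeff e.1) ?_ ?_ hfin
    · rintro F ⟨hF, hPF⟩
      refine ⟨fun m i => hF.2 _ _, fun hg => hPF ?_⟩
      have h3 := hP B _ hg
      rwa [form_coeff F hF.1] at h3
    · rintro F ⟨hF, _⟩ G ⟨hG, _⟩ h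
      rw [← form_coeff F hF.1, ← form_coeff G hG.1]
      exact congrArg form h
  exact_mod_cast h2

end Pool.Agent.K3h75.ND
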