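import Pool.Agent.K3h75.ND.AllK
import Pool.Agent.K3h75.ND.FinE
import Pool.Agent.K3h77.ND.Cnte
import Pool.Agent.K3h62.ND.G0E

/-!
# Hypersurfaces with nodal reductions at large primes: summary
-/

set_option autoImplicit false

namespace Pool.Agent.K3h75.ND

theorem cnte_ok : S_CNTE :=
  Pool.Agent.K3h77.ND.t_CNTE ek_ok e1_ok e2_ok Pool.Agent.K3h41.ND.t_NRM1
    Pool.Agent.K3h41.ND.t_NRM2

theorem g0e_ok : S_G0E := Pool.Agent.K3h62.ND.t_G0E

end Pool.Agent.K3h75.ND
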