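import Pool.Agent.K3h75.ND.All
import Pool.Agent.K3h41.ND.Nrm
import Pool.Agent.K3h86.ND.Cnto
import Pool.Agent.K3h24.ND.G0O

/-!
# Hypersurfaces with nodal reductions: summary over number fields
-/

set_option autoImplicit false

namespace Pool.Agent.K3h75.ND

theorem cnto_ok : S_CNTO :=
  Pool.Agent.K3h86.ND.t_CNTO ek_ok e1_ok e2_ok smp_ok Pool.Agent.K3h41.ND.t_NRM1
    Pool.Agent.K3h41.ND.t_NRM2

theorem g0o_ok : S_G0O := Pool.Agent.K3h24.ND.t_G0O

end Pool.Agent.K3h75.ND
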