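import Pool.Agent.K3h75.ND.Stm

/-!
# Hypersurfaces with nodal reductions: the local rings of the modification are regular
-/

set_option autoImplicit false
set_option linter.unusedSectionVars false
set_option linter.unusedVariables false

open scoped Pointwise

namespace Pool.Agent.K3h75.ND

open MvPolynomial Pool.Agent.H918R2.Quad Pool.Agent.H945R2.E Pool.Agent.TH214.RM
open Pool.Agent.W418 Pool.Agent.W418.LU2 Pool.Agent.H945R2.D

section aux

variable {F : Type} [Field F] {𝒪 : Subring F}

theorem exists_U_sum (h : IsLoc 𝒪) {ι : Type} (s : Finset ι) (a : ι → F)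
    (ha : ∀ i ∈ s, a i ∈ 𝒪) (hU : U 𝒪 (∑ i ∈ s, a i)) : ∃ i ∈ s, U 𝒪 (a i) := by
  classical
  induction s using Finset.induction_on with
  | empty =>
    rw [Finset.sum_empty] at hU
    exact absurd hU not_U_zero
  | insert j s hj ih =>
    rw [Finset.sum_insert hj] at hU
    rcases h _ _ (ha j (Finset.mem_insert_self _ _))
      (𝒪.sum_mem fun i hi => ha i (Finset.mem_insert_of_mem hi)) hU with h1 | h1
    · exact ⟨j, Finset.mem_insert_self _ _, h1⟩
    · obtain ⟨i, hi, h2⟩ := ih (fun i hi => ha i (Finset.mem_insert_of_mem hi)) h1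
      exact ⟨i, Finset.mem_insert_of_mem hi, h2⟩

theorem U.neg' {x : F} (hx : U 𝒪 (-x)) : U 𝒪 x := by
  have h1 : U 𝒪 (-1 : F) :=
    ⟨neg_ne_zero.2 one_ne_zero, 𝒪.neg_mem 𝒪.one_mem, by
      rw [inv_neg, inv_one]; exact 𝒪.neg_mem 𝒪.one_mem⟩
  have h2 := hx.mul h1
  rwa [mul_neg_one, neg_neg] at h2

end aux

/-- Some coordinate is nonzero. -/
theorem exists_x_ne {R F : Type} [CommRing R] [Field F] [Algebra R F] {n : ℕ} (π : R)
    (H : MvPolynomial (Fin (n + 2)) R) (d r : ℕ) (x : Fin (n + 2) → F) (e : ℕ) (he : 1 ≤ e)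
    (f : F) (hf : f ≠ 0) (hfP : f ∈ Submodule.span R (∏ k, Psi π x H d e r k)) :
    ∃ s, x s ≠ 0 := by
  by_contra hcon
  push Not at hcon
  apply hf
  have h1 : ∀ g ∈ ∏ k, Psi π x H d e r k, g = 0 := by
    intro g hg
    rw [Fintype.prod_option, Set.mem_mul] at hg
    obtain ⟨a, ha, b, hb, rfl⟩ := hg
    have ha' : a ∈ Set.range x ^ e := ha
    obtain ⟨m, rfl⟩ : ∃ m, e = m + 1 := ⟨e - 1, by omega⟩
    rw [pow_succ, Set.mem_mul] at ha'
    obtain ⟨a₁, _, _, ⟨i, rfl⟩, rfl⟩ := ha'
    rw [hcon i, mul_zero, zero_mul]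
  have h2 : (∏ k, Psi π x H d e r k) ⊆ ((⊥ : Submodule R F) : Set F) := by
    intro g hg
    rw [h1 g hg]
    exact Submodule.zero_mem _
  have h3 := Submodule.span_le.2 h2 hfP
  exact (Submodule.mem_bot R).1 h3

/-- Smooth points. -/
theorem smooth_point {R F : Type} [CommRing R] [IsDomain R] [IsRegularRing R] [Field F]
    [Algebra R F] {σ : Type} [Finite σ] (𝒪 : Subring F) (hloc : IsLoc 𝒪)
    (E : MvPolynomial σ R) (hE : E ≠ 0) (t : σ → F) (hEt : aeval t E = 0)
    (htO : ∀ w : MvPolynomial σ R, aeval t w ∈ 𝒪)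
    (hind : ∃ j₀ : σ, AlgebraicIndependent R (fun j : {j : σ // j ≠ j₀} => t j))
    (j : σ) (hj : U 𝒪 (aeval t (pderiv j E)))
    (hfrac : ∀ x ∈ 𝒪, ∃ a b : MvPolynomial σ R, U 𝒪 (aeval t b) ∧ x = aeval t a / aeval t b) :
    IsRegularLocalRing 𝒪 := by
  obtain ⟨j₀, hj₀⟩ := hind
  have hI : ∀ w ∈ Ideal.span {E}, aeval t w = 0 := by
    intro w hw
    obtain ⟨c, rfl⟩ := Ideal.mem_span_singleton.1 hw
    rw [map_mul, hEt, zero_mul]
  obtain ⟨A, _, _, pr, hpr, hprk, hpr0⟩ := exists_quot (R := R) (Ideal.span {E})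
  have haev : ∀ p : MvPolynomial σ R,
      aeval (fun j : σ => (X j : MvPolynomial σ R)) p = p := by
    intro p
    rw [aeval_X_left_apply]
  refine regular_of_pres 𝒪 hloc pr hpr (aeval t) ?_ htO ?_ ?_
    (fun j : σ => X j) E hE ?_ j₀ ?_ ?_
  · intro w hw
    exact hI w ((hpr0 w).1 hw)
  · intro y hy
    obtain ⟨a, b, hb, hyab⟩ := hfrac y hy
    exact ⟨a, b, hb.1, hb.2.2, hyab⟩
  · intro q hq hqm
    refine regular_of_pderiv E (pr : _ →+* A) hpr hprk q j ?_
    change pr (pderiv j E) ∉ q
    rw [hqm, not_not]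
    exact hj
  · rw [haev, hpr0]
    exact Ideal.mem_span_singleton_self _
  · convert hj₀ using 2 with j
    exact aeval_X _ _
  · intro w
    refine ⟨w, 1, by simp, ?_⟩
    rw [haev 1, one_mul, haev]

/-- The data at a nondegenerate critical point; either `k = 2 j` and the first chart, or
`2 j + 1 ≤ k` and the second chart. -/
theorem node_point (hREG1 : S_REG1) (hREG2 : S_REG2) {R F : Type} [CommRing R] [IsDomain R]
    [IsDiscreteValuationRing R] [Field F] [Algebra R F] {σ : Type} [Fintype σ] [DecidableEq σ]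
    (𝒪 : Subring F) (π : R) (f : MvPolynomial σ R) (t : σ → F) (k : ℕ)
    (h u : MvPolynomial σ R) (b : σ → σ → MvPolynomial σ R) (hD : NodeData 𝒪 π f t k h u b)
    (r : ℕ) (hk1 : 1 ≤ k) (hkr : k ≤ r) (hπF : algebraMap R F π ≠ 0)
    -- the dichotomy
    (hdich : ∀ m : ℕ, m < r →
      (∀ l, aeval t (pderiv l f) / algebraMap R F (π ^ (m + 1)) ∈ 𝒪) ∨
      ∃ i, aeval t (pderiv i f) ≠ 0 ∧
        (∀ l, aeval t (pderiv l f) / aeval t (pderiv i f) ∈ 𝒪) ∧
        algebraMap R F (π ^ (m + 1)) / aeval t (pderiv i f) ∈ 𝒪)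
    -- the fractions
    (hfrac : ∀ (W : Type) [CommRing W] [Algebra R W] (eW : W →ₐ[R] F), (∀ w, eW w ∈ 𝒪) →
      (∀ i, ∃ w, t i = eW w) → ∀ ρ : Fin r → F, (∀ j, ρ j ≠ 0) →
      (∀ j l, ∃ w, aeval t (pderiv l f) = ρ j * eW w) →
      (∀ j, ∃ w, algebraMap R F (π ^ (j.val + 1)) = ρ j * eW w) →
      (∀ j, (∃ l, U 𝒪 (aeval t (pderiv l f) / ρ j)) ∨
        U 𝒪 (algebraMap R F (π ^ (j.val + 1)) / ρ j)) →
      ∀ y ∈ 𝒪, ∃ a b : W, U 𝒪 (eW b) ∧ y = eW a / eW b) :
    IsRegularLocalRing 𝒪 := by
  have hloc := hD.loc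
  have hR := hD.R_mem
  set p : F := algebraMap R F π with hp
  have hpm : ∀ m : ℕ, algebraMap R F (π ^ m) = p ^ m := fun m => map_pow _ _ _
  have hpU : ¬ U 𝒪 p := fun h => hD.irr.not_isUnit (hD.R_unit π h)
  have hpO : p ∈ 𝒪 := hR π
  have hp0 : ∀ m : ℕ, p ^ m ≠ 0 := fun m => pow_ne_zero m hπF
  have htO : ∀ w : MvPolynomial σ R, aeval t w ∈ 𝒪 := by
    intro w
    induction w using MvPolynomial.induction_on with
    | C r => rw [aeval_C]; exact hR r
    | add p q hp hq => rw [map_add]; exact 𝒪.add_mem hp hq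
    | mul_X p j hp => rw [map_mul, aeval_X]; exact 𝒪.mul_mem hp (hD.t_mem _)
  set y : σ → F := fun l => aeval t (pderiv l f) with hy
  -- the equation
  have heq : 0 = p ^ k * aeval t u + ∑ i, ∑ j, aeval t (b i j) * y i * y j := by
    have h1 := congrArg (aeval t : MvPolynomial σ R →ₐ[R] F) hD.eq
    rw [map_mul, hD.rel, mul_zero, map_add, map_mul, aeval_C, hpm, map_sum] at h1
    rw [h1]
    congr 1
    refine Finset.sum_congr rfl fun i _ => ?_
    rw [map_sum]
    refine Finset.sum_congr rfl fun j _ => ?_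
    rw [map_mul, map_mul]
  -- the equation after division
  have heq2 : ∀ (m : ℕ) (z : σ → F), (∀ l, y l = p ^ m * z l) →
      p ^ k * aeval t u = - (p ^ (2 * m) * ∑ i, ∑ j, aeval t (b i j) * z i * z j) := by
    intro m z hz
    rw [eq_neg_iff_add_eq_zero]
    rw [heq, Finset.mul_sum]
    congr 1
    refine Finset.sum_congr rfl fun i _ => ?_
    rw [Finset.mul_sum]
    refine Finset.sum_congr rfl fun j _ => ?_
    rw [hz i, hz j]
    ring
  have hsO : ∀ z : σ → F, (∀ l, z l ∈ 𝒪) → ∑ i, ∑ j, aeval t (b i j) * z i * z j ∈ 𝒪 :=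
    fun z hz => 𝒪.sum_mem fun i _ => 𝒪.sum_mem fun j _ =>
      𝒪.mul_mem (𝒪.mul_mem (htO _) (hz i)) (hz j)
  -- the claim
  have hclaim : ∀ m : ℕ, (∀ l, y l / p ^ m ∈ 𝒪) → 2 * m ≤ k := by
    intro m hm
    by_contra hcon
    push Not at hcon
    have h1 := heq2 m (fun l => y l / p ^ m) fun l => by
      rw [mul_div_cancel₀ _ (hp0 m)]
    have h2 : aeval t u = - (p * (p ^ (2 * m - k - 1) *
        ∑ i, ∑ j, aeval t (b i j) * (y i / p ^ m) * (y j / p ^ m))) := by
      apply mul_left_cancel₀ (hp0 k)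
      rw [h1]
      have h3 : p ^ (2 * m) = p ^ k * (p * p ^ (2 * m - k - 1)) := by
        rw [← pow_succ', ← pow_add]
        congr 1
        omega
      rw [h3]
      ring
    have h4 := hD.u_unit
    rw [h2] at h4
    have h5 : U 𝒪 (p * (p ^ (2 * m - k - 1) *
        ∑ i, ∑ j, aeval t (b i j) * (y i / p ^ m) * (y j / p ^ m))) := by
      exact U.neg' h4
    exact hpU (h5.of_mul_left hpO (𝒪.mul_mem (𝒪.pow_mem hpO _) (hsO _ hm)))
  -- the maximal exponent
  have h0 : ∀ l, y l / p ^ 0 ∈ 𝒪 := by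
    intro l
    rw [pow_zero, div_one]
    exact htO _
  obtain ⟨j, hj, hjmax⟩ : ∃ j, (∀ l, y l / p ^ j ∈ 𝒪) ∧ ¬ ∀ l, y l / p ^ (j + 1) ∈ 𝒪 := by
    by_contra hcon
    push Not at hcon
    have h1 : ∀ m : ℕ, ∀ l, y l / p ^ m ∈ 𝒪 := by
      intro m
      induction m with
      | zero => exact h0
      | succ m ih => exact hcon m ih
    have h2 := hclaim (k + 1) (h1 _)
    omega
  have hjk := hclaim j hj
  have hjr : j < r := by omega
  rcases hdich j hjr with hd | ⟨i₀, hi₀, hw, hτ⟩
  · exfalso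
    apply hjmax
    intro l
    rw [← hpm]
    exact hd l
  rw [hpm] at hτ
  change y i₀ ≠ 0 at hi₀
  change ∀ l, y l / y i₀ ∈ 𝒪 at hw
  change p ^ (j + 1) / y i₀ ∈ 𝒪 at hτ
  have hτU : ¬ U 𝒪 (p ^ (j + 1) / y i₀) := by
    intro hU
    apply hjmax
    intro l
    have h1 : y l / p ^ (j + 1) = (y l / y i₀) * (p ^ (j + 1) / y i₀)⁻¹ := by
      have := hp0 (j + 1)
      field_simp
    rw [h1]
    exact 𝒪.mul_mem (hw l) hU.2.2
  by_cases hk : k = 2 * j
  · -- the first chart
    set z : σ → F := fun l => y l / p ^ j with hz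
    have hyz : ∀ l, y l = p ^ j * z l := fun l => by
      simp only [hz]
      rw [mul_div_cancel₀ _ (hp0 j)]
    have hzU : ∃ l, U 𝒪 (z l) := by
      have h1 := heq2 j z hyz
      rw [hk] at h1
      have h2 : aeval t u = - ∑ i, ∑ j, aeval t (b i j) * z i * z j := by
        apply mul_left_cancel₀ (hp0 (2 * j))
        rw [h1]
        ring
      have h3 : U 𝒪 (∑ i, ∑ j, aeval t (b i j) * z i * z j) := by
        apply U.neg'
        rw [← h2]
        exact hD.u_unit
      obtain ⟨i, _, hi⟩ := exists_U_sum hloc Finset.univ _ (fun i _ => 𝒪.sum_mem fun j _ =>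
        𝒪.mul_mem (𝒪.mul_mem (htO _) (hj i)) (hj j)) h3
      obtain ⟨l, _, hl⟩ := exists_U_sum hloc Finset.univ _ (fun j _ =>
        𝒪.mul_mem (𝒪.mul_mem (htO _) (hj i)) (hj j)) hi
      exact ⟨l, hl.of_mul_right (𝒪.mul_mem (htO _) (hj i)) (hj l)⟩
    refine hREG1 R F σ 𝒪 π f t k h u b hD j z hj ?_ (Or.inl hk) ?_
    · intro l
      rw [hpm]
      exact hyz l
    · have hWO : ∀ w : MvPolynomial (σ ⊕ σ) R, aeval (Sum.elim t z) w ∈ 𝒪 := by
        intro w
        induction w using MvPolynomial.induction_on with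
        | C r => rw [aeval_C]; exact hR r
        | add p q hp hq => rw [map_add]; exact 𝒪.add_mem hp hq
        | mul_X p j hp =>
          rw [map_mul, aeval_X]
          refine 𝒪.mul_mem hp ?_
          rcases j with j | j
          · exact hD.t_mem _
          · exact hj _
      refine hfrac (MvPolynomial (σ ⊕ σ) R) (aeval (Sum.elim t z)) hWO
        (fun i => ⟨X (Sum.inl i), by rw [aeval_X]; rfl⟩)
        (fun m => if m.val + 1 ≤ j then p ^ (m.val + 1) else p ^ j) ?_ ?_ ?_ ?_
      · intro m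
        split_ifs
        · exact hp0 _
        · exact hp0 _
      · intro m l
        change ∃ w, y l = _
        by_cases hm : m.val + 1 ≤ j
        · refine ⟨C (π ^ (j - (m.val + 1))) * X (Sum.inr l), ?_⟩
          rw [if_pos hm, map_mul, aeval_C, aeval_X, Sum.elim_inr, hyz l, hpm, ← mul_assoc,
            ← pow_add]
          congr 2
          omega
        · refine ⟨X (Sum.inr l), ?_⟩
          rw [if_neg hm, aeval_X, Sum.elim_inr, hyz l]
      · intro m
        by_cases hm : m.val + 1 ≤ j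
        · refine ⟨1, ?_⟩
          rw [if_pos hm, map_one, mul_one, hpm]
        · refine ⟨C (π ^ (m.val + 1 - j)), ?_⟩
          rw [if_neg hm, aeval_C, hpm, hpm, ← pow_add]
          congr 1
          omega
      · intro m
        by_cases hm : m.val + 1 ≤ j
        · right
          rw [if_pos hm, hpm, div_self (hp0 _)]
          exact U_one
        · left
          obtain ⟨l, hl⟩ := hzU
          refine ⟨l, ?_⟩
          rw [if_neg hm]
          exact hl
  · -- the second chart
    set w : σ → F := fun l => y l / y i₀ with hwdef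
    set s : F := y i₀ / p ^ j with hs
    set τ : F := p ^ (j + 1) / y i₀ with hτdef
    have hyw : ∀ l, y l = p ^ j * s * w l := fun l => by
      simp only [hs, hwdef]
      have := hp0 j
      field_simp
    have hsO' : s ∈ 𝒪 := hj i₀
    refine hREG2 R F σ 𝒪 π f t k h u b hD j i₀ w s τ hw (div_self hi₀) hsO' hτ hτU ?_ ?_ ?_ ?_
    · change s * τ = p
      simp only [hs, hτdef]
      have := hp0 j
      field_simp
      rw [pow_succ]
    · intro l
      rw [hpm]
      exact hyw l
    · omega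
    · have hWO : ∀ v : MvPolynomial (σ ⊕ (σ ⊕ Bool)) R, aeval (val2 t w s τ) v ∈ 𝒪 := by
        intro v
        induction v using MvPolynomial.induction_on with
        | C r => rw [aeval_C]; exact hR r
        | add p q hp hq => rw [map_add]; exact 𝒪.add_mem hp hq
        | mul_X p j hp =>
          rw [map_mul, aeval_X]
          refine 𝒪.mul_mem hp ?_
          rcases j with j | j | c
          · exact hD.t_mem _
          · exact hw _
          · cases c
            · exact hτ
            · exact hsO'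
      have eτ : aeval (val2 t w s τ) (X (Sum.inr (Sum.inr false)) :
          MvPolynomial (σ ⊕ (σ ⊕ Bool)) R) = τ := by rw [aeval_X]; rfl
      have es : aeval (val2 t w s τ) (X (Sum.inr (Sum.inr true)) :
          MvPolynomial (σ ⊕ (σ ⊕ Bool)) R) = s := by rw [aeval_X]; rfl
      have ew : ∀ l, aeval (val2 t w s τ) (X (Sum.inr (Sum.inl l)) :
          MvPolynomial (σ ⊕ (σ ⊕ Bool)) R) = w l := fun l => by rw [aeval_X]; rfl
      refine hfrac (MvPolynomial (σ ⊕ (σ ⊕ Bool)) R) (aeval (val2 t w s τ)) hWO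
        (fun i => ⟨X (Sum.inl i), by rw [aeval_X]; rfl⟩)
        (fun m => if m.val + 1 ≤ j then p ^ (m.val + 1) else y i₀) ?_ ?_ ?_ ?_
      · intro m
        split_ifs
        · exact hp0 _
        · exact hi₀
      · intro m l
        change ∃ w, y l = _
        by_cases hm : m.val + 1 ≤ j
        · refine ⟨C (π ^ (j - (m.val + 1))) * (X (Sum.inr (Sum.inr true)) *
            X (Sum.inr (Sum.inl l))), ?_⟩
          rw [if_pos hm, map_mul, map_mul, aeval_C, es, ew, hyw l, hpm, ← mul_assoc,
            ← mul_assoc, ← pow_add]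
          congr 3
          omega
        · refine ⟨X (Sum.inr (Sum.inl l)), ?_⟩
          rw [if_neg hm, ew]
          simp only [hwdef]
          rw [mul_div_cancel₀ _ hi₀]
      · intro m
        by_cases hm : m.val + 1 ≤ j
        · refine ⟨1, ?_⟩
          rw [if_pos hm, map_one, mul_one, hpm]
        · refine ⟨C (π ^ (m.val - j)) * X (Sum.inr (Sum.inr false)), ?_⟩
          rw [if_neg hm, map_mul, eτ, aeval_C, hpm, hpm]
          simp only [hτdef]
          rw [mul_comm, mul_assoc, div_mul_cancel₀ _ hi₀, ← pow_add]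
          congr 1
          omega
      · intro m
        by_cases hm : m.val + 1 ≤ j
        · right
          rw [if_pos hm, hpm, div_self (hp0 _)]
          exact U_one
        · left
          refine ⟨i₀, ?_⟩
          rw [if_neg hm]
          change U 𝒪 (y i₀ / y i₀)
          rw [div_self hi₀]
          exact U_one

theorem t_CORE : S_EXP → S_REG1 → S_REG2 → S_DF → S_CORE := by
  intro hEXP hREG1 hREG2 hDF R F _ _ _ _ _ n 𝒪 hloc hR hRU π hπ H d hd hH hH0 hnod r hr x hrel
    hind e he f hf hfP hfO hchart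
  obtain ⟨s₀, hs₀⟩ := exists_x_ne π H d r x e he f hf hfP
  have hinj : Function.Injective (algebraMap R F) := by
    obtain ⟨j₀, hj₀⟩ := hind s₀ hs₀
    exact hj₀.algebraMap_injective
  have hπF : algebraMap R F π ≠ 0 := fun h =>
    hπ.ne_zero (hinj (by rw [h, map_zero]))
  obtain ⟨s, hs, htO, hdich, hfrac⟩ := hDF R F n 𝒪 hloc hR π hπF H d hd hH r x e he f hf hfP
    hfO hchart
  set t : Fin (n + 2) → F := fun i => x i / x s with ht
  have hts : t s = 1 := div_self hs
  set t' : {j : Fin (n + 2) // j ≠ s} → F := fun j => t j with ht'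
  set E : MvPolynomial {j : Fin (n + 2) // j ≠ s} R := deh s H with hE
  have hdeh : ∀ G : MvPolynomial (Fin (n + 2)) R, aeval t' (deh s G) = aeval t G :=
    fun G => aeval_deh s t hts G
  have hHt : aeval t H = 0 := by
    have h1 : t = fun j => x j * (x s)⁻¹ := by
      funext j
      simp only [ht]
      rw [div_eq_mul_inv]
    rw [h1, aeval_scale x _ d H hH, hrel, zero_mul]
  have hEt : aeval t' E = 0 := by rw [hE, hdeh, hHt]
  have hE0 : E ≠ 0 := deh_ne_zero s H hH0 d hH
  have heW : ∀ w : MvPolynomial {j : Fin (n + 2) // j ≠ s} R, aeval t' w ∈ 𝒪 := by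
    intro w
    induction w using MvPolynomial.induction_on with
    | C r => rw [aeval_C]; exact hR r
    | add p q hp hq => rw [map_add]; exact 𝒪.add_mem hp hq
    | mul_X p j hp => rw [map_mul, aeval_X]; exact 𝒪.mul_mem hp (htO _)
  have hyE : ∀ l : {j : Fin (n + 2) // j ≠ s}, aeval t' (pderiv l E) = aeval t (pderiv l.1 H) := by
    intro l
    rw [hE, pderiv_deh, hdeh]
  -- Euler's formula
  have hEuler : aeval t (pderiv s H) =
      - ∑ l : {j : Fin (n + 2) // j ≠ s}, t l * aeval t (pderiv l.1 H) := by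
    have h1 := congrArg (aeval t : MvPolynomial (Fin (n + 2)) R →ₐ[R] F) hH.sum_X_mul_pderiv
    rw [map_sum, map_nsmul, hHt, smul_zero] at h1
    simp only [map_mul, aeval_X] at h1
    rw [← Finset.add_sum_erase _ _ (Finset.mem_univ s), hts, one_mul] at h1
    rw [eq_neg_iff_add_eq_zero, ← h1]
    congr 1
    rw [Finset.sum_subtype (Finset.univ.erase s) (p := fun j => j ≠ s)
      (fun j => by simp) (fun j => t j * aeval t (pderiv j H))]
  let Q : Ideal (MvPolynomial {j : Fin (n + 2) // j ≠ s} R) :=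
    primeOf hloc ((aeval t' : MvPolynomial {j : Fin (n + 2) // j ≠ s} R →ₐ[R] F) : _ →+* F) heW
  have hQp : Q.IsPrime := primeOf_isPrime hloc _ heW
  have hQ : ∀ w, w ∈ Q ↔ ¬ U 𝒪 (aeval t' w) := fun w => mem_primeOf hloc _ heW w
  have hEQ : E ∈ Q := by
    rw [hQ, hEt]
    exact not_U_zero
  have hCQ : ∀ r : R, C r ∈ Q ↔ ¬ IsUnit r := by
    intro r
    rw [hQ, aeval_C]
    refine not_congr ⟨hRU r, fun h => ?_⟩
    obtain ⟨u, rfl⟩ := h
    have h1 : algebraMap R F (u : R) * algebraMap R F ((u⁻¹ : Rˣ) : R) = 1 := by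
      rw [← map_mul, Units.mul_inv, map_one]
    refine ⟨left_ne_zero_of_mul_eq_one h1, hR _, ?_⟩
    rw [inv_eq_of_mul_eq_one_right h1]
    exact hR _
  by_cases hsm : ∃ j, pderiv j E ∉ Q
  · -- a smooth point
    obtain ⟨j, hj⟩ := hsm
    rw [hQ, not_not] at hj
    refine smooth_point 𝒪 hloc E hE0 t' hEt heW (hind s hs) j hj ?_
    refine hfrac (MvPolynomial {j : Fin (n + 2) // j ≠ s} R) (aeval t') heW ?_ (fun _ => 1)
      (fun _ => one_ne_zero) ?_ ?_ ?_
    · intro i
      by_cases hi : i = s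
      · refine ⟨1, ?_⟩
        rw [map_one, hi]
        exact hts
      · exact ⟨X ⟨i, hi⟩, by rw [aeval_X]⟩
    · intro _ l
      refine ⟨deh s (pderiv l H), ?_⟩
      rw [one_mul, hdeh]
    · intro m
      refine ⟨C (π ^ (m.val + 1)), ?_⟩
      rw [one_mul, aeval_C]
    · intro m
      left
      refine ⟨j.1, ?_⟩
      rw [div_one, ← hyE]
      exact hj
  · -- a singular point of the special fibre
    have hhes : (hess E).det ∉ Q := (hnod s Q hQp hEQ hCQ).resolve_left hsm
    push Not at hsm
    have hπQ : C π ∈ Q := (hCQ π).2 hπ.not_isUnit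
    have hmem : (1 : MvPolynomial {j : Fin (n + 2) // j ≠ s} R) * C (π ^ r) ∈
        Ideal.span (insert E (Set.range fun j => pderiv j E)) := by
      obtain ⟨m, hm⟩ := hr s
      set I := Ideal.span (insert E (Set.range fun j => pderiv j E)) with hI
      have hEI : E ∈ I := Ideal.subset_span (Set.mem_insert _ _)
      have hpI : ∀ j, pderiv j E ∈ I := fun j =>
        Ideal.subset_span (Set.mem_insert_of_mem _ ⟨j, rfl⟩)
      have hle : Ideal.span (Set.range fun j => pderiv j H) ≤ I.comap
          ((aeval (tau s) : MvPolynomial (Fin (n + 2)) R →ₐ[R]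
            MvPolynomial {j : Fin (n + 2) // j ≠ s} R) : _ →+* _) := by
        rw [Ideal.span_le]
        rintro _ ⟨j, rfl⟩
        exact all_pderiv_mem H d hH s I hEI hpI j
      have h2 : (aeval (tau s) : MvPolynomial (Fin (n + 2)) R →ₐ[R]
          MvPolynomial {j : Fin (n + 2) // j ≠ s} R) (C (π ^ r) * X s ^ m) ∈ I := hle hm
      have h3 : (tau s s : MvPolynomial {i : Fin (n + 2) // i ≠ s} R) = 1 := by
        unfold tau
        rw [dif_pos rfl]
      rw [map_mul, map_pow _ (X s), aeval_X, h3, one_pow, mul_one, aeval_C] at h2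
      rw [one_mul]
      exact h2
    have h1Q : (1 : MvPolynomial {j : Fin (n + 2) // j ≠ s} R) ∉ Q :=
      (Ideal.ne_top_iff_one Q).1 hQp.ne_top
    obtain ⟨k, h, u, b, hk1, hkr, hhQ, huQ, hbQ, heq⟩ := hEXP R _ π hπ E Q hπQ hEQ hsm hhes r 1
      h1Q hmem
    have hND : NodeData 𝒪 π E t' k h u b :=
      { loc := hloc
        R_mem := hR
        R_unit := hRU
        irr := hπ
        t_mem := fun l => htO _
        rel := hEt
        ind := hind s hs
        crit := fun l => (hQ _).1 (hsm l)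
        hes := by rw [hQ, not_not] at hhes; exact hhes
        h_unit := by rw [hQ, not_not] at hhQ; exact hhQ
        u_unit := by rw [hQ, not_not] at huQ; exact huQ
        b_unit := by rw [hQ, not_not] at hbQ; exact hbQ
        eq := heq }
    refine node_point hREG1 hREG2 𝒪 π E t' k h u b hND r hk1 hkr hπF ?_ ?_
    · intro m hm
      rcases hdich m hm with h1 | ⟨i, hi, hil, hiτ⟩
      · left
        intro l
        rw [hyE]
        exact h1 _
      · right
        by_cases his : i = s
        · subst his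
          -- some `y l / y i` is a unit
          have h1 : (1 : F) = - ∑ l : {j : Fin (n + 2) // j ≠ i}, t l *
              (aeval t (pderiv l.1 H) / aeval t (pderiv i H)) := by
            have h2 := congrArg (fun z => z / aeval t (pderiv i H)) hEuler
            rw [div_self hi] at h2
            rw [h2, neg_div, Finset.sum_div]
            congr 1
            refine Finset.sum_congr rfl fun l _ => ?_
            rw [mul_div_assoc]
          have h2 : U 𝒪 (∑ l : {j : Fin (n + 2) // j ≠ i}, t l *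
              (aeval t (pderiv l.1 H) / aeval t (pderiv i H))) := by
            apply U.neg'
            rw [← h1]
            exact U_one
          obtain ⟨l₀, _, hl₀⟩ := exists_U_sum hloc Finset.univ _ (fun l _ =>
            𝒪.mul_mem (htO _) (hil _)) h2
          have h3 : U 𝒪 (aeval t (pderiv l₀.1 H) / aeval t (pderiv i H)) :=
            hl₀.of_mul_right (htO _) (hil _)
          have h4 : aeval t (pderiv l₀.1 H) ≠ 0 := (div_ne_zero_iff.1 h3.1).1
          have h5 : ∀ z : F, z / aeval t (pderiv l₀.1 H) = (z / aeval t (pderiv i H)) *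
              (aeval t (pderiv l₀.1 H) / aeval t (pderiv i H))⁻¹ := by
            intro z
            field_simp
          refine ⟨l₀, ?_, ?_, ?_⟩
          · rw [hyE]
            exact h4
          · intro l
            rw [hyE, hyE, h5]
            exact 𝒪.mul_mem (hil _) h3.2.2
          · rw [hyE, h5]
            exact 𝒪.mul_mem hiτ h3.2.2
        · refine ⟨⟨i, his⟩, ?_, ?_, ?_⟩
          · rw [hyE]
            exact hi
          · intro l
            rw [hyE, hyE]
            exact hil _
          · rw [hyE]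
            exact hiτ
    · intro W _ _ eW heWO htW ρ hρ hyρ hπρ hUρ
      refine hfrac W eW heWO ?_ ρ hρ ?_ hπρ ?_
      · intro i
        by_cases hi : i = s
        · refine ⟨1, ?_⟩
          rw [map_one, hi]
          exact hts
        · exact htW ⟨i, hi⟩
      · intro m l
        by_cases hl : l = s
        · subst hl
          choose w hw using fun j : {j : Fin (n + 2) // j ≠ l} => hyρ m j
          choose v hv using fun j : {j : Fin (n + 2) // j ≠ l} => htW j
          refine ⟨- ∑ j, v j * w j, ?_⟩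
          change aeval t (pderiv l H) = _
          rw [hEuler, map_neg, map_sum, mul_neg, Finset.mul_sum]
          congr 1
          refine Finset.sum_congr rfl fun j _ => ?_
          rw [map_mul, ← hv j, ← hyE, hw j]
          ring
        · obtain ⟨w, hw⟩ := hyρ m ⟨l, hl⟩
          exact ⟨w, by rw [← hw, hyE]⟩
      · intro m
        rcases hUρ m with ⟨l, hl⟩ | h1
        · left
          refine ⟨l.1, ?_⟩
          rw [hyE] at hl
          exact hl
        · right
          exact h1

end Pool.Agent.K3h75.ND
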