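import Pool.Agent.K3h75.ND.StmA
import Pool.Agent.K3h75.ND.AllK

/-!
# Affine hypersurfaces: models, and the counting of polynomials
-/

set_option autoImplicit false
set_option linter.unusedSectionVars false
set_option linter.unusedVariables false

namespace Pool.Agent.K3h75.ND

open MvPolynomial Pool.Agent.TH214.RM NumberField AlgebraicGeometry CategoryTheory
open Pool.Agent.W418

theorem map_dh {R S : Type} [CommRing R] [CommRing S] (φ : R →+* S) {m : ℕ}
    (G : MvPolynomial (Fin (m + 1)) R) : map φ (dh G) = dh (map φ G) := by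
  induction G using MvPolynomial.induction_on with
  | C a => simp [dh]
  | add p q hp hq => simp only [dh, map_add] at hp hq ⊢; rw [hp, hq]
  | mul_X p i hp =>
    simp only [dh, map_mul, aeval_X, map_X] at hp ⊢
    rw [hp]
    congr 1
    refine Fin.cases ?_ (fun j => ?_) i
    · simp
    · simp

/-- The counting of the good polynomials. -/
theorem countA (hPB : S_PB) (hC : S_CNTO) {O ι : Type} [CommRing O] [IsDomain O] [CharZero O]
    [Fintype ι] (ω : Module.Basis ι ℤ O) (n d : ℕ) (hd : 2 ≤ d)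
    (P : MvPolynomial (Fin (n + 1)) O → Prop)
    (hP : ∀ a : Mon (n + 1 + 1) d → O, GoodVecO a → P (dh (form a))) :
    (∀ H : ℕ, (PBox ω (n + 1) d H).Finite) ∧
    ∃ c : ℝ, 0 < c ∧ ∃ H₀ : ℕ, ∀ H : ℕ, H₀ ≤ H →
      c * ((PBox ω (n + 1) d H).ncard : ℝ) ≤ ({f ∈ PBox ω (n + 1) d H | P f}.ncard : ℝ) := by
  have hfin : ∀ H : ℕ, (PBox ω (n + 1) d H).Finite := by
    intro H
    rw [← (hPB O ι ω (n + 1) d H).image_eq]
    exact (box_finite ω (n + 2) d H).1.image _
  refine ⟨hfin, ?_⟩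
  obtain ⟨c, hc, H₀, h⟩ := count hC ω n d hd (fun G => P (dh G)) hP
  refine ⟨c, hc, H₀, fun H hH => ?_⟩
  have hb := hPB O ι ω (n + 1) d H
  have h1 : (PBox ω (n + 1) d H).ncard = (Box ω (n + 2) d H).ncard := by
    rw [← hb.image_eq]
    exact hb.injOn.ncard_image
  have h2 : {F ∈ Box ω (n + 2) d H | P (dh F)}.ncard ≤ {f ∈ PBox ω (n + 1) d H | P f}.ncard := by
    refine Set.ncard_le_ncard_of_injOn dh ?_ ?_ ((hfin H).subset (Set.sep_subset _ _))
    · rintro F ⟨hF, hF2⟩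
      exact ⟨hb.mapsTo hF, hF2⟩
    · intro F hF G hG hFG
      exact hb.injOn hF.1 hG.1 hFG
  rw [h1]
  exact (h H hH).trans (by exact_mod_cast h2)

/-- The regular proper models of the function field. -/
theorem model_aff (hAFF : S_AFF) (hHM : S_HM) (hGM : S_GM) {E : Type} [Field E] [NumberField E]
    {n : ℕ} (hn : 1 ≤ n) (H : MvPolynomial (Fin (n + 2)) (𝓞 E)) (d : ℕ) (hd : 2 ≤ d)
    (hH : H.IsHomogeneous d) (hsm : Smooth (map (algebraMap (𝓞 E) E) H))
    (hnod : ∀ 𝔭 : Ideal (𝓞 E), 𝔭.IsPrime → 𝔭 ≠ ⊥ → Nod 𝔭 H) :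
    Irreducible (dh (map (algebraMap (𝓞 E) E) H)) ∧
    ∃ (X' : Scheme.{0}) (_ : IsIntegral X') (g : X' ⟶ Spec (CommRingCat.of ℤ)),
      IsProper g ∧
      (∀ x : X',
        (((Module.finrank (IsLocalRing.ResidueField (X'.presheaf.stalk x))
            (IsLocalRing.CotangentSpace (X'.presheaf.stalk x)) : ℕ∞)) : WithBot ℕ∞)
          = ringKrullDim (X'.presheaf.stalk x)) ∧
      Nonempty (X'.functionField ≃+*
        FractionRing (MvPolynomial (Fin (n + 1)) E ⧸
          Ideal.span {dh (map (algebraMap (𝓞 E) E) H)})) := by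
  have hGd : (map (algebraMap (𝓞 E) E) H).IsHomogeneous d := hH.map _
  have hirr := irreducible_of_smooth hn (map (algebraMap (𝓞 E) E) H) d (by omega) hGd hsm
  obtain ⟨hdir, F, _, _, x, b, hx0, hrel, hgen, htb, ⟨e⟩⟩ := hAFF E n d
    (map (algebraMap (𝓞 E) E) H) hGd hirr (not_dvd_X _ hirr.ne_zero d hd hGd)
  refine ⟨hdir, ?_⟩
  let _ : Algebra (𝓞 E) F := ((algebraMap E F).comp (algebraMap (𝓞 E) E)).toAlgebra
  have hst : IsScalarTower (𝓞 E) E F := IsScalarTower.of_algebraMap_eq fun _ => rfl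
  have hH0 : H ≠ 0 := by
    rintro rfl
    rw [map_zero] at hirr
    exact hirr.ne_zero rfl
  have hrel' : aeval x H = 0 := by
    rw [aeval_map_algebraMap] at hrel
    exact hrel
  have hM : GoodModule (𝓞 E) x :=
    hGM (𝓞 E) E F n H d hd hH hH0 hsm hnod x hx0 hrel' hgen b htb
  have hOF : Function.Injective (algebraMap (𝓞 E) F) := by
    rw [IsScalarTower.algebraMap_eq (𝓞 E) E F]
    exact (algebraMap E F).injective.comp (IsFractionRing.injective (𝓞 E) E)
  obtain ⟨X', hX', g, hg, hreg, ⟨i⟩⟩ := Pool.Agent.H918R2.Quad.model_of_hasModule hOF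
    (hHM (𝓞 E) E F n x hx0 hgen hM)
  exact ⟨X', hX', g, hg, hreg, ⟨i.trans e⟩⟩

end Pool.Agent.K3h75.ND
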