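import Pool.Agent.TH214.RM.Fin
import Pool.Agent.W418.LU2.Ind

/-!
# Hypersurfaces with nodal reductions: statements (geometry)

`R` is a discrete valuation ring with the uniformizer `π`, `F` is the function field of a projective
hypersurface `H = 0` over `R`, and `𝒪` is a local ring of a modification of this hypersurface,
considered as a subring of `F` (library of helper918: `IsLoc`, `U`, `IsLocOf`, `chart`).
-/

set_option autoImplicit false

open scoped Pointwise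

namespace Pool.Agent.K3h75.ND

open MvPolynomial Pool.Agent.H918R2.Quad Pool.Agent.H945R2.E Pool.Agent.TH214.RM
open Pool.Agent.W418 Pool.Agent.W418.LU2

/-- The Hessian matrix. -/
noncomputable def hess {R σ : Type} [CommRing R] (f : MvPolynomial σ R) :
    Matrix σ σ (MvPolynomial σ R) :=
  Matrix.of fun i j => pderiv i (pderiv j f)

/-- The polar matrix of the quadratic form with the coefficients `b`. -/
def polar {W σ : Type} [CommRing W] (b : σ → σ → W) : Matrix σ σ W :=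
  Matrix.of fun i j => b i j + b j i

/-- All critical points of `H` over `𝔭` on `H = 0` are nondegenerate. -/
def Nod {O ι : Type} [CommRing O] [Fintype ι] [DecidableEq ι] (𝔭 : Ideal O)
    (H : MvPolynomial ι O) : Prop :=
  ∀ (s : ι) (Q : Ideal (MvPolynomial {j : ι // j ≠ s} O)), Q.IsPrime →
    (∀ r : O, C r ∈ Q ↔ r ∈ 𝔭) → deh s H ∈ Q →
    (∃ j, pderiv j (deh s H) ∉ Q) ∨ (hess (deh s H)).det ∉ Q

/-- **JR1**: Jacobian criterion over a discrete valuation ring. -/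
def S_JR1 : Prop := ∀ (R σ α A : Type) [CommRing R] [IsDomain R] [IsDiscreteValuationRing R]
  [Fintype σ] [Fintype α] [CommRing A] (π : R), Irreducible π →
  ∀ pr : MvPolynomial σ R →+* A, Function.Surjective pr → ∀ c : α → MvPolynomial σ R,
  RingHom.ker pr = Ideal.span (Set.range c) → ∀ (q : Ideal A) [q.IsPrime], pr (C π) ∈ q →
  (∀ a : α → MvPolynomial σ R, (∀ i, pr (∑ l, a l * pderiv i (c l)) ∈ q) → ∀ l, pr (a l) ∈ q) →
  IsRegularLocalRing (Localization.AtPrime q)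

/-- **JR2**: the same with one more equation `c₀` which is `u π` modulo the square. -/
def S_JR2 : Prop := ∀ (R σ α A : Type) [CommRing R] [IsDomain R] [IsDiscreteValuationRing R]
  [Fintype σ] [Fintype α] [CommRing A] (π : R), Irreducible π →
  ∀ pr : MvPolynomial σ R →+* A, Function.Surjective pr → ∀ (c : α → MvPolynomial σ R)
  (c₀ u : MvPolynomial σ R), RingHom.ker pr = Ideal.span (insert c₀ (Set.range c)) →
  ∀ (q : Ideal A) [q.IsPrime], pr (C π) ∈ q →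
  (∀ a : α → MvPolynomial σ R, (∀ i, pr (∑ l, a l * pderiv i (c l)) ∈ q) → ∀ l, pr (a l) ∈ q) →
  pr u ∉ q → c₀ - u * C π ∈ (q.comap pr) ^ 2 →
  IsRegularLocalRing (Localization.AtPrime q)

/-- **PAR**: at a nondegenerate critical point in the special fibre, `π` and the partial
derivatives generate the maximal ideal, and the height is the number of variables plus one. -/
def S_PAR : Prop := ∀ (R σ : Type) [CommRing R] [IsDomain R] [IsDiscreteValuationRing R]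
  [Fintype σ] [DecidableEq σ] (π : R), Irreducible π → ∀ (f : MvPolynomial σ R)
  (Q : Ideal (MvPolynomial σ R)) [Q.IsPrime], C π ∈ Q → (∀ j, pderiv j f ∈ Q) →
  (hess f).det ∉ Q →
  (∀ x ∈ Q, ∃ c, c ∉ Q ∧ c * x ∈ Ideal.span (insert (C π) (Set.range fun j => pderiv j f))) ∧
  -- `π` is not nilpotent modulo the partial derivatives
  (∀ (m : ℕ) (c : MvPolynomial σ R), c ∉ Q →
    c * C (π ^ m) ∉ Ideal.span (Set.range fun j => pderiv j f)) ∧
  -- the partial derivatives and `π` are independent modulo the square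
  (∀ (a : σ → MvPolynomial σ R) (a₀ : MvPolynomial σ R),
    a₀ * C π + ∑ j, a j * pderiv j f ∈ Q ^ 2 → a₀ ∈ Q ∧ ∀ j, a j ∈ Q)

/-- **EXP**: expansion at a nondegenerate critical point in the special fibre. -/
def S_EXP : Prop := ∀ (R σ : Type) [CommRing R] [IsDomain R] [IsDiscreteValuationRing R]
  [Fintype σ] [DecidableEq σ] (π : R), Irreducible π → ∀ (f : MvPolynomial σ R)
  (Q : Ideal (MvPolynomial σ R)) [Q.IsPrime], C π ∈ Q → f ∈ Q → (∀ j, pderiv j f ∈ Q) →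
  (hess f).det ∉ Q → ∀ (r : ℕ) (h₀ : MvPolynomial σ R), h₀ ∉ Q →
  h₀ * C (π ^ r) ∈ Ideal.span (insert f (Set.range fun j => pderiv j f)) →
  ∃ (k : ℕ) (h u : MvPolynomial σ R) (b : σ → σ → MvPolynomial σ R), 1 ≤ k ∧ k ≤ r ∧
    h ∉ Q ∧ u ∉ Q ∧ (polar b).det ∉ Q ∧
    h * f = C (π ^ k) * u + ∑ i, ∑ j, b i j * pderiv i f * pderiv j f

/-- The local ring `𝒪` lies over a nondegenerate critical point with critical value of valuation
`k`: the equation is `h f = π ^ k u + ∑ b i j y i y j`, where the `y i` are the partial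
derivatives. -/
structure NodeData {R F σ : Type} [CommRing R] [Field F] [Algebra R F] [Fintype σ] [DecidableEq σ]
    (𝒪 : Subring F) (π : R) (f : MvPolynomial σ R) (t : σ → F) (k : ℕ)
    (h u : MvPolynomial σ R) (b : σ → σ → MvPolynomial σ R) : Prop where
  loc : IsLoc 𝒪
  R_mem : ∀ r : R, algebraMap R F r ∈ 𝒪
  R_unit : ∀ r : R, U 𝒪 (algebraMap R F r) → IsUnit r
  irr : Irreducible π
  t_mem : ∀ l, t l ∈ 𝒪
  rel : aeval t f = 0
  ind : ∃ j₀ : σ, AlgebraicIndependent R (fun j : {j : σ // j ≠ j₀} => t j)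
  crit : ∀ l, ¬ U 𝒪 (aeval t (pderiv l f))
  hes : U 𝒪 (aeval t (hess f).det)
  h_unit : U 𝒪 (aeval t h)
  u_unit : U 𝒪 (aeval t u)
  b_unit : U 𝒪 (aeval t (polar b).det)
  eq : h * f = C (π ^ k) * u + ∑ i, ∑ j, b i j * pderiv i f * pderiv j f

/-- **REG1**: the chart with the coordinates `z l = y l / π ^ j`. -/
def S_REG1 : Prop := ∀ (R F σ : Type) [CommRing R] [IsDomain R] [IsDiscreteValuationRing R]
  [Field F] [Algebra R F] [Fintype σ] [DecidableEq σ] (𝒪 : Subring F) (π : R)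
  (f : MvPolynomial σ R) (t : σ → F) (k : ℕ) (h u : MvPolynomial σ R)
  (b : σ → σ → MvPolynomial σ R), NodeData 𝒪 π f t k h u b →
  ∀ (j : ℕ) (z : σ → F), (∀ l, z l ∈ 𝒪) →
  (∀ l, aeval t (pderiv l f) = algebraMap R F (π ^ j) * z l) → (k = 2 * j ∨ k = 2 * j + 1) →
  (∀ x ∈ 𝒪, ∃ a b : MvPolynomial (σ ⊕ σ) R, U 𝒪 (aeval (Sum.elim t z) b) ∧
    x = aeval (Sum.elim t z) a / aeval (Sum.elim t z) b) →
  IsRegularLocalRing 𝒪

/-- The values of the variables in the second chart. -/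
def val2 {F σ : Type} (t w : σ → F) (s τ : F) : σ ⊕ (σ ⊕ Bool) → F :=
  Sum.elim t (Sum.elim w fun c => bif c then s else τ)

/-- **REG2**: the chart with the coordinates `s = y i₀ / π ^ j`, `τ = π ^ (j + 1) / y i₀` and
`w l = y l / y i₀`. -/
def S_REG2 : Prop := ∀ (R F σ : Type) [CommRing R] [IsDomain R] [IsDiscreteValuationRing R]
  [Field F] [Algebra R F] [Fintype σ] [DecidableEq σ] (𝒪 : Subring F) (π : R)
  (f : MvPolynomial σ R) (t : σ → F) (k : ℕ) (h u : MvPolynomial σ R)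
  (b : σ → σ → MvPolynomial σ R), NodeData 𝒪 π f t k h u b →
  ∀ (j : ℕ) (i₀ : σ) (w : σ → F) (s τ : F), (∀ l, w l ∈ 𝒪) → w i₀ = 1 → s ∈ 𝒪 → τ ∈ 𝒪 →
  ¬ U 𝒪 τ → s * τ = algebraMap R F π →
  (∀ l, aeval t (pderiv l f) = algebraMap R F (π ^ j) * s * w l) → 2 * j + 1 ≤ k →
  (∀ x ∈ 𝒪, ∃ a b : MvPolynomial (σ ⊕ (σ ⊕ Bool)) R, U 𝒪 (aeval (val2 t w s τ) b) ∧
    x = aeval (val2 t w s τ) a / aeval (val2 t w s τ) b) →
  IsRegularLocalRing 𝒪

/-- **GEN**: generators of the factors of a principal product. -/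
def S_GEN : Prop := ∀ (R F : Type) [CommRing R] [Field F] [Algebra R F] (𝒪 : Subring F),
  IsLoc 𝒪 → (∀ r : R, algebraMap R F r ∈ 𝒪) → ∀ (κ : Type) [Fintype κ] (Φ : κ → Set F) (f : F),
  f ≠ 0 → f ∈ Submodule.span R (∏ k, Φ k) → (∀ h ∈ ∏ k, Φ k, h / f ∈ 𝒪) →
  ∃ g : κ → F, (∀ k, g k ∈ Φ k ∧ g k ≠ 0) ∧ (∀ k, ∀ h ∈ Φ k, h / g k ∈ 𝒪) ∧
    U 𝒪 (f / ∏ k, g k)

/-- The set of generators (times `x s ^ (d - 1)`) of the ideal generated by the partial
derivatives and `π ^ (j + 1)`; and the forms of degree `e`. -/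
def Psi {R F ι : Type} [CommRing R] [Field F] [Algebra R F] (π : R) (x : ι → F)
    (H : MvPolynomial ι R) (d e r : ℕ) : Option (Fin r) → Set F
  | none => Set.range x ^ e
  | some j => (Set.range fun i => aeval x (pderiv i H)) ∪
      {y | ∃ g ∈ Set.range x ^ (d - 1), y = algebraMap R F (π ^ (j.val + 1)) * g}

/-- **DF**: the centre of the local ring `𝒪` of the modification on the hypersurface is in the chart
`x s ≠ 0`; for all `m ≤ r` the ideal generated by `π ^ m` and the partial derivatives is principal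
in `𝒪`; and the fractions. -/
def S_DF : Prop := ∀ (R F : Type) [CommRing R] [Field F] [Algebra R F] (n : ℕ) (𝒪 : Subring F),
  IsLoc 𝒪 → (∀ r : R, algebraMap R F r ∈ 𝒪) → ∀ π : R, algebraMap R F π ≠ 0 →
  ∀ (H : MvPolynomial (Fin (n + 2)) R) (d : ℕ), 2 ≤ d → H.IsHomogeneous d → ∀ (r : ℕ)
  (x : Fin (n + 2) → F) (e : ℕ), 1 ≤ e → ∀ f : F, f ≠ 0 →
  f ∈ Submodule.span R (∏ k, Psi π x H d e r k) →
  (∀ h ∈ ∏ k, Psi π x H d e r k, h / f ∈ 𝒪) →
  IsLocOf 𝒪 (chart R (Submodule.span R (∏ k, Psi π x H d e r k)) f) →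
  ∃ s, x s ≠ 0 ∧ (∀ i, x i / x s ∈ 𝒪) ∧
    (∀ m : ℕ, m < r →
      (∀ l, aeval (fun i => x i / x s) (pderiv l H) / algebraMap R F (π ^ (m + 1)) ∈ 𝒪) ∨
      ∃ i, aeval (fun i => x i / x s) (pderiv i H) ≠ 0 ∧
        (∀ l, aeval (fun i => x i / x s) (pderiv l H) /
          aeval (fun i => x i / x s) (pderiv i H) ∈ 𝒪) ∧
        algebraMap R F (π ^ (m + 1)) / aeval (fun i => x i / x s) (pderiv i H) ∈ 𝒪) ∧
    ∀ (W : Type) [CommRing W] [Algebra R W] (eW : W →ₐ[R] F), (∀ w, eW w ∈ 𝒪) →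
      (∀ i, ∃ w, x i / x s = eW w) → ∀ ρ : Fin r → F, (∀ j, ρ j ≠ 0) →
      (∀ j l, ∃ w, aeval (fun i => x i / x s) (pderiv l H) = ρ j * eW w) →
      (∀ j, ∃ w, algebraMap R F (π ^ (j.val + 1)) = ρ j * eW w) →
      (∀ j, (∃ l, U 𝒪 (aeval (fun i => x i / x s) (pderiv l H) / ρ j)) ∨
        U 𝒪 (algebraMap R F (π ^ (j.val + 1)) / ρ j)) →
      ∀ y ∈ 𝒪, ∃ a b : W, U 𝒪 (eW b) ∧ y = eW a / eW b

/-- **CORE**: the local rings of the modification are regular. -/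
def S_CORE : Prop := ∀ (R F : Type) [CommRing R] [IsDomain R] [IsDiscreteValuationRing R]
  [Field F] [Algebra R F] (n : ℕ) (𝒪 : Subring F), IsLoc 𝒪 → (∀ r : R, algebraMap R F r ∈ 𝒪) →
  (∀ r : R, U 𝒪 (algebraMap R F r) → IsUnit r) → ∀ π : R, Irreducible π →
  ∀ (H : MvPolynomial (Fin (n + 2)) R) (d : ℕ), 2 ≤ d → H.IsHomogeneous d → H ≠ 0 →
  (∀ (s : Fin (n + 2)) (Q : Ideal (MvPolynomial {j // j ≠ s} R)), Q.IsPrime → deh s H ∈ Q →
    (∀ r : R, C r ∈ Q ↔ ¬ IsUnit r) → (∃ j, pderiv j (deh s H) ∉ Q) ∨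
      (hess (deh s H)).det ∉ Q) →
  ∀ r : ℕ, (∀ i : Fin (n + 2), ∃ m : ℕ, (C (π ^ r) * X i ^ m : MvPolynomial (Fin (n + 2)) R) ∈
    (Ideal.span (Set.range fun j => pderiv j H) : Ideal (MvPolynomial (Fin (n + 2)) R))) →
  ∀ x : Fin (n + 2) → F, aeval x H = 0 →
  (∀ s, x s ≠ 0 → ∃ j₀ : {i // i ≠ s},
    AlgebraicIndependent R (fun i : {i : {i // i ≠ s} // i ≠ j₀} => x i / x s)) →
  ∀ e : ℕ, 1 ≤ e → ∀ f : F, f ≠ 0 → f ∈ Submodule.span R (∏ k, Psi π x H d e r k) →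
  (∀ h ∈ ∏ k, Psi π x H d e r k, h / f ∈ 𝒪) →
  IsLocOf 𝒪 (chart R (Submodule.span R (∏ k, Psi π x H d e r k)) f) → IsRegularLocalRing 𝒪

/-- **LMN**: local modules at nodal primes. -/
def S_LMN : Prop := ∀ (O R K F : Type) [CommRing O] [IsDomain O] [CommRing R] [IsDomain R]
  [Field K] [Field F] [Algebra O R] [Algebra R K] [Algebra O F] [Algebra R F] [Algebra K F]
  [IsScalarTower O R F] [IsScalarTower R K F] (𝔭 : Ideal O) [𝔭.IsPrime]
  [IsLocalization.AtPrime R 𝔭] [IsDiscreteValuationRing R] [IsFractionRing R K] (n : ℕ)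
  (H : MvPolynomial (Fin (n + 2)) O) (d : ℕ), 2 ≤ d → H.IsHomogeneous d → H ≠ 0 → Nod 𝔭 H →
  ∀ c : O, c ≠ 0 → (∀ i : Fin (n + 2), ∃ m : ℕ, (C c * X i ^ m : MvPolynomial (Fin (n + 2)) O) ∈
    (Ideal.span (Set.range fun j => pderiv j H) : Ideal (MvPolynomial (Fin (n + 2)) O))) →
  ∀ x : Fin (n + 2) → F, x 0 = 1 → aeval x H = 0 →
  IntermediateField.adjoin K (Set.range x) = ⊤ → ∀ b : Fin n → F, IsTranscendenceBasis K b →
  LocMod 𝔭 x

open NumberField in
/-- **GM**: good modules for smooth hypersurfaces with nodal reductions. -/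
def S_GM : Prop := ∀ (O K F : Type) [CommRing O] [IsDedekindDomain O] [Field K] [Algebra O K]
  [IsFractionRing O K] [Field F] [Algebra K F] [Algebra O F] [IsScalarTower O K F] (n : ℕ)
  (H : MvPolynomial (Fin (n + 2)) O) (d : ℕ), 2 ≤ d → H.IsHomogeneous d → H ≠ 0 →
  Smooth (map (algebraMap O K) H) → (∀ 𝔭 : Ideal O, 𝔭.IsPrime → 𝔭 ≠ ⊥ → Nod 𝔭 H) →
  ∀ x : Fin (n + 2) → F, x 0 = 1 → aeval x H = 0 →
  IntermediateField.adjoin K (Set.range x) = ⊤ → ∀ b : Fin n → F, IsTranscendenceBasis K b →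
  GoodModule O x

end Pool.Agent.K3h75.ND
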