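import Pool.Agent.K3h75.ND.Fin
import Pool.Agent.H918R2.Quad.Final

/-!
# Affine hypersurfaces: statements
-/

set_option autoImplicit false

namespace Pool.Agent.K3h75.ND

open MvPolynomial Pool.Agent.TH214.RM NumberField Pool.Agent.W418

/-- Substitute `X 0 = 1`. -/
noncomputable def dh {R : Type} [CommRing R] {m : ℕ} (G : MvPolynomial (Fin (m + 1)) R) :
    MvPolynomial (Fin m) R :=
  aeval (Fin.cases (motive := fun _ => MvPolynomial (Fin m) R) 1 fun i => X i) G

/-- **AFF**: the function field of an affine hypersurface. -/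
def S_AFF : Prop := ∀ (E : Type) [Field E] (n d : ℕ) (G : MvPolynomial (Fin (n + 2)) E),
  G.IsHomogeneous d → Irreducible G → ¬ G ∣ X 0 → Irreducible (dh G) ∧
  ∃ (F : Type) (_ : Field F) (_ : Algebra E F) (x : Fin (n + 2) → F) (b : Fin n → F),
    x 0 = 1 ∧ aeval x G = 0 ∧ IntermediateField.adjoin E (Set.range x) = ⊤ ∧
    IsTranscendenceBasis E b ∧
    Nonempty (F ≃+* FractionRing (MvPolynomial (Fin (n + 1)) E ⧸ Ideal.span {dh G}))

/-- **HM**: from a good module to a module with all fraction fields equal to `F`. -/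
def S_HM : Prop := ∀ (O K F : Type) [CommRing O] [IsDomain O] [Field K] [Algebra O K]
  [IsFractionRing O K] [Field F] [Algebra K F] [Algebra O F] [IsScalarTower O K F] (n : ℕ)
  (x : Fin (n + 2) → F), x 0 = 1 → IntermediateField.adjoin K (Set.range x) = ⊤ →
  GoodModule O x → Pool.Agent.H918R2.Quad.HasModule O F

/-- The polynomials in a box. -/
def PBox {O ι : Type} [CommRing O] (ω : Module.Basis ι ℤ O) (m d H : ℕ) :
    Set (MvPolynomial (Fin m) O) :=
  {f | f.totalDegree ≤ d ∧ ∀ e i, |ω.repr (f.coeff e) i| ≤ H}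

/-- **PB**: forms in `m + 1` variables and polynomials in `m` variables. -/
def S_PB : Prop := ∀ (O ι : Type) [CommRing O] [Fintype ι] (ω : Module.Basis ι ℤ O) (m d H : ℕ),
  Set.BijOn dh (Box ω (m + 1) d H) (PBox ω m d H)

end Pool.Agent.K3h75.ND
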