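import Pool.Agent.K3h75.ND.StmK

/-!
# Hypersurfaces with nodal reductions at large primes: statements
-/

set_option autoImplicit false

namespace Pool.Agent.K3h75.ND

open MvPolynomial Pool.Agent.TH214.RM NumberField

/-- The form with coefficients `a` in the ring `O` is smooth over all fields of characteristic zero,
and over all fields of characteristic larger than `P` it has only nondegenerate singular points. -/
def GoodVecE {O : Type} [CommRing O] {N d : ℕ} (P : ℕ) (a : Mon (N + 1) d → O) : Prop :=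
  (∀ (k : Type) [Field k] [CharZero k] (φ : O →+* k) (x : Fin (N + 1) → k),
    (∀ i, eval x (pderiv i (form fun m => φ (a m))) = 0) → x = 0) ∧
  ∀ p : ℕ, p.Prime → P < p → ∀ (k : Type) [Field k] [CharP k p] (φ : O →+* k)
    (x : Fin (N + 1) → k) (s : Fin (N + 1)), x s = 1 → eval x (form fun m => φ (a m)) = 0 →
    (∀ i, eval x (pderiv i (form fun m => φ (a m))) = 0) →
    hdet (form fun m => φ (a m)) s x ≠ 0

/-- **CNTE**: all but a small proportion of all forms with coefficients in `O`. -/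
def S_CNTE : Prop := ∀ (O ι : Type) [CommRing O] [IsDomain O] [CharZero O] [Fintype ι]
  (ω : Module.Basis ι ℤ O) (N d : ℕ), 1 ≤ N → 2 ≤ d → ∀ ε : ℝ, 0 < ε →
  ∃ P H₀ : ℕ, ∀ H : ℕ, H₀ ≤ H →
    ({a : Mon (N + 1) d → O | (∀ m i, |ω.repr (a m) i| ≤ H) ∧ ¬ GoodVecE P a}.ncard : ℝ) ≤
      ε * (2 * (H : ℝ) + 1) ^ (Fintype.card (Mon (N + 1) d) * Fintype.card ι)

/-- **G0E**: smoothness and nodal reductions over all localizations of rings of integers in which
the small primes are invertible. -/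
def S_G0E : Prop := ∀ (n d P : ℕ) (O : Type) [CommRing O] (a : Mon (n + 1 + 1) d → O),
  GoodVecE P a → ∀ (E R : Type) [Field E] [NumberField E] [CommRing R] [Algebra (𝓞 E) R]
  [Algebra R E] [IsScalarTower (𝓞 E) R E] (M : Submonoid (𝓞 E)), (0 : 𝓞 E) ∉ M →
  IsLocalization M R →
  (∀ p : ℕ, p.Prime → p ≤ P → IsUnit (p : R)) → ∀ (ψ : O →+* R),
  Smooth (map (algebraMap R E) (form fun m => ψ (a m))) ∧
  ∀ 𝔭 : Ideal R, 𝔭.IsPrime → 𝔭 ≠ ⊥ → Nod 𝔭 (form fun m => ψ (a m))

end Pool.Agent.K3h75.ND
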