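import Pool.Agent.K3h75.ND.Stm
import Pool.Agent.K3h75.ND.StmN

/-!
# Hypersurfaces with nodal reductions: from the counting to the geometry
-/

set_option autoImplicit false

namespace Pool.Agent.K3h75.ND

open MvPolynomial Pool.Agent.TH214.RM NumberField

/-- **G0**: smoothness and nodal reductions over all number fields. -/
def S_G0 : Prop := ∀ (n d : ℕ) (a : Mon (n + 1 + 1) d → ℤ), GoodVec a →
  ∀ (K : Type) [Field K] [NumberField K],
  Smooth (map (algebraMap (𝓞 K) K) (form fun m => ((a m : ℤ) : 𝓞 K))) ∧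
  ∀ 𝔭 : Ideal (𝓞 K), 𝔭.IsPrime → 𝔭 ≠ ⊥ → Nod 𝔭 (form fun m => ((a m : ℤ) : 𝓞 K))

end Pool.Agent.K3h75.ND
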